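import Pool.Agent.L5helper23.RP.Fin

set_option autoImplicit false

/-!
Arcs: the exponents at infinity of systems with equidistributed exponents at the finite points.
-/

namespace Pool.Agent.L5helper23.RP

open Pool.Agent.W432.PC Pool.Agent.W432.TC Pool.Agent.Y227.SS Finset

lemma ineq_gt {r : ℕ} {E : Fin 3 → Fin r → ℝ} (h : Ineq E) (a b c : ℝ) (habc : a + b + c = 0) :
    (r : ℝ) ≤ ∑ l, nextGe a (E 0 l) + ∑ l, nextGe b (E 1 l) + ∑ l, nextGt c (E 2 l) := by
  obtain ⟨η, hη0, hη1, hη⟩ := exists_eta (fun l => Int.fract (c - E 2 l))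
    (fun l => Int.fract_nonneg _) (fun l => Int.fract_lt_one _)
  have k1 := h ![a, b, c + η] (by
    rw [Fin.sum_univ_three]
    simp only [Matrix.cons_val_zero, Matrix.cons_val_one, Matrix.cons_val]
    linarith)
  rw [Fin.sum_univ_three] at k1
  simp only [Matrix.cons_val_zero, Matrix.cons_val_one, Matrix.cons_val] at k1
  have k2 : ∑ l, nextGe (c + η) (E 2 l) ≤ ∑ l, nextGt c (E 2 l) := by
    refine Finset.sum_le_sum fun l _ => ?_
    unfold nextGe nextGt
    have h1 := (hη l).2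
    have h2 : ⌈c + η - E 2 l⌉ ≤ ⌊c - E 2 l⌋ + 1 := by
      rw [Int.ceil_le]
      push_cast
      unfold Int.fract at h1
      linarith
    have h3 : ((⌈c + η - E 2 l⌉ : ℤ) : ℝ) ≤ ⌊c - E 2 l⌋ + 1 := by exact_mod_cast h2
    linarith
  linarith

/-- the numbers `f l` are equidistributed modulo the integers in the multiples of `1 / p` -/
def EquiR (p : ℕ) {r : ℕ} (f : Fin r → ℝ) : Prop := ∀ j : ℤ, p * cl f (j / p) = r

open scoped Classical in
lemma equiR_cover {p r : ℕ} (hp : 0 < p) {f : Fin r → ℝ} (h : EquiR p f) (k : ℤ) :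
    (univ : Finset (Fin r)) = (range p).biUnion (fun j : ℕ => univ.filter fun l => ∃ e : ℤ,
      f l = ((k + j : ℤ) : ℝ) / p + e) ∧
    Set.PairwiseDisjoint (range p : Set ℕ) (fun j : ℕ => (univ : Finset (Fin r)).filter fun l => ∃ e : ℤ,
      f l = ((k + j : ℤ) : ℝ) / p + e) := by
  have hp' : (0 : ℝ) < p := by exact_mod_cast hp
  have hdisj : Set.PairwiseDisjoint (range p : Set ℕ) (fun j : ℕ => (univ : Finset (Fin r)).filter
      fun l => ∃ e : ℤ, f l = ((k + j : ℤ) : ℝ) / p + e) := by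
    intro i hi j hj hij
    rw [Function.onFun, Finset.disjoint_left]
    intro l hl1 hl2
    rw [mem_filter] at hl1 hl2
    obtain ⟨e1, he1⟩ := hl1.2
    obtain ⟨e2, he2⟩ := hl2.2
    apply hij
    rw [Finset.coe_range, Set.mem_Iio] at hi hj
    rw [he1] at he2
    have h1 : ((k + i : ℤ) : ℝ) + p * e1 = ((k + j : ℤ) : ℝ) + p * e2 := by
      field_simp at he2
      linarith
    have h2 : (k + i : ℤ) + p * e1 = (k + j : ℤ) + p * e2 := by exact_mod_cast h1
    have h3 : (p : ℤ) ∣ (i : ℤ) - j := ⟨e2 - e1, by linarith⟩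
    have h4 : (i : ℤ) - j = 0 := by
      apply Int.eq_zero_of_abs_lt_dvd h3
      rw [abs_lt]
      constructor <;> omega
    omega
  refine ⟨?_, hdisj⟩
  symm
  apply Finset.eq_univ_of_card
  rw [Finset.card_biUnion hdisj, Fintype.card_fin]
  have h1 : p * ∑ j ∈ range p, ((univ : Finset (Fin r)).filter fun l => ∃ e : ℤ,
      f l = ((k + j : ℤ) : ℝ) / p + e).card = p * r := by
    rw [Finset.mul_sum]
    have : ∀ j ∈ range p, p * ((univ : Finset (Fin r)).filter fun l => ∃ e : ℤ,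
        f l = ((k + j : ℤ) : ℝ) / p + e).card = r := fun j _ => h (k + j)
    rw [Finset.sum_congr rfl this, Finset.sum_const, card_range, smul_eq_mul]
  exact Nat.eq_of_mul_eq_mul_left hp h1

lemma equiR_mem {p r : ℕ} (hp : 0 < p) {f : Fin r → ℝ} (h : EquiR p f) (l : Fin r) :
    ∃ m : ℤ, (p : ℝ) * f l = m := by
  classical
  have hp' : (0 : ℝ) < p := by exact_mod_cast hp
  have h1 := (equiR_cover hp h 0).1
  have h2 : l ∈ (univ : Finset (Fin r)) := mem_univ l
  rw [h1, Finset.mem_biUnion] at h2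
  obtain ⟨j, -, hj⟩ := h2
  rw [mem_filter] at hj
  obtain ⟨e, he⟩ := hj.2
  refine ⟨(0 + j : ℤ) + p * e, ?_⟩
  rw [he]
  push_cast
  field_simp

lemma equiR_sum {p r : ℕ} (hp : 0 < p) {f : Fin r → ℝ} (h : EquiR p f) (k : ℤ) :
    ∑ l, nextGe (k / p) (f l) = r * (k / p) + r * (1 / 2 - 1 / (2 * p)) := by
  classical
  have hp' : (0 : ℝ) < p := by exact_mod_cast hp
  obtain ⟨h1, h2⟩ := equiR_cover hp h k
  rw [h1, Finset.sum_biUnion h2]
  have h3 : ∀ j ∈ range p, ∑ l ∈ (univ : Finset (Fin r)).filter (fun l => ∃ e : ℤ,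
      f l = ((k + j : ℤ) : ℝ) / p + e), nextGe (k / p) (f l) = r / p * (k / p + j / p) := by
    intro j hj
    rw [mem_range] at hj
    have h4 : ∀ l ∈ (univ : Finset (Fin r)).filter (fun l => ∃ e : ℤ,
        f l = ((k + j : ℤ) : ℝ) / p + e), nextGe (k / p) (f l) = k / p + j / p := by
      intro l hl
      rw [mem_filter] at hl
      obtain ⟨e, he⟩ := hl.2
      rw [he, nextGe_add_int, nextGe_eq]
      have h5 : ((k + j : ℤ) : ℝ) / p - k / p = j / p := by
        push_cast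
        ring
      rw [h5, Int.fract_eq_self.2]
      refine ⟨by positivity, ?_⟩
      rw [div_lt_one hp']
      exact_mod_cast hj
    rw [Finset.sum_congr rfl h4, Finset.sum_const, nsmul_eq_mul]
    have h6 : (p : ℝ) * ((univ : Finset (Fin r)).filter (fun l => ∃ e : ℤ,
        f l = ((k + j : ℤ) : ℝ) / p + e)).card = r := by
      have := h (k + j)
      unfold cl at this
      exact_mod_cast this
    rw [← h6]
    generalize (((univ : Finset (Fin r)).filter (fun l => ∃ e : ℤ,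
        f l = ((k + j : ℤ) : ℝ) / p + e)).card : ℝ) = c
    field_simp
  rw [Finset.sum_congr rfl h3, ← Finset.mul_sum, Finset.sum_add_distrib, Finset.sum_const, card_range,
    nsmul_eq_mul, ← Finset.sum_div]
  have h7 : ∑ j ∈ range p, (j : ℝ) = p * (p - 1) / 2 := by
    have h8 : ∀ n : ℕ, ∑ j ∈ range n, (j : ℝ) = n * (n - 1) / 2 := by
      intro n
      induction n with
      | zero => simp
      | succ n ih =>
        rw [Finset.sum_range_succ, ih]
        push_cast
        ring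
    exact h8 p
  rw [h7]
  field_simp

lemma EquiR.neg {p r : ℕ} {f : Fin r → ℝ} (h : EquiR p f) : EquiR p (fun l => -f l) := by
  classical
  intro j
  have h1 := h (-j)
  have h2 : cl (fun l => -f l) (j / p) = cl f (((-j : ℤ) : ℝ) / p) := by
    unfold cl
    congr 1
    ext l
    simp only [mem_filter, mem_univ, true_and]
    constructor
    · rintro ⟨k, hk⟩
      refine ⟨-k, ?_⟩
      push_cast
      rw [neg_div]
      linarith
    · rintro ⟨k, hk⟩
      refine ⟨-k, ?_⟩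
      push_cast at hk ⊢
      rw [neg_div] at hk
      linarith
  rw [h2]
  exact h1

lemma EquiR.mul {p r : ℕ} (hp : 0 < p) {f : Fin r → ℝ} (h : EquiR p f) {e : ℤ} (he : IsCoprime e (p : ℤ)) :
    EquiR p (fun l => (e : ℝ) * f l) := by
  classical
  have hp' : (0 : ℝ) < p := by exact_mod_cast hp
  intro j
  obtain ⟨u, v, huv⟩ := he
  have h1 := h (u * j)
  have h2 : cl (fun l => (e : ℝ) * f l) (j / p) = cl f (((u * j : ℤ) : ℝ) / p) := by
    unfold cl
    congr 1
    ext l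
    simp only [mem_filter, mem_univ, true_and]
    obtain ⟨m, hm⟩ := equiR_mem hp h l
    have hf : f l = m / p := by
      rw [← hm]
      field_simp
    have huv' : (u : ℝ) * e + v * p = 1 := by exact_mod_cast huv
    rw [hf]
    constructor
    · rintro ⟨k, hk⟩
      -- m = u e m + v p m, e m = j + k p
      have h3 : (e : ℝ) * m = j + k * p := by
        field_simp at hk
        linarith
      refine ⟨u * k + v * m, ?_⟩
      push_cast
      field_simp
      linear_combination (-(m : ℝ)) * huv' + (u : ℝ) * h3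
    · rintro ⟨k, hk⟩
      have h3 : (m : ℝ) = u * j + k * p := by
        push_cast at hk
        field_simp at hk
        linarith
      refine ⟨e * k - v * j, ?_⟩
      push_cast
      field_simp
      linear_combination (j : ℝ) * huv' + (e : ℝ) * h3
  rw [h2]
  exact h1

/-- Bezout -/
lemma bezout {p q : ℕ} (hp : 0 < p) (hq : 0 < q) (k : ℤ) :
    ∃ i j : ℤ, (i : ℝ) / p + (j : ℝ) / q = (k : ℝ) / (Nat.lcm p q : ℕ) := by
  have hp' : (0 : ℝ) < p := by exact_mod_cast hp
  have hq' : (0 : ℝ) < q := by exact_mod_cast hq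
  have h1 : ((Nat.gcd p q : ℕ) : ℤ) = p * Nat.gcdA p q + q * Nat.gcdB p q := Nat.gcd_eq_gcd_ab p q
  have h2 : Nat.gcd p q * Nat.lcm p q = p * q := Nat.gcd_mul_lcm p q
  have hl : 0 < Nat.lcm p q := Nat.lcm_pos hp hq
  have hl' : (0 : ℝ) < (Nat.lcm p q : ℕ) := by exact_mod_cast hl
  refine ⟨k * Nat.gcdB p q, k * Nat.gcdA p q, ?_⟩
  have h1' : ((Nat.gcd p q : ℕ) : ℝ) = p * Nat.gcdA p q + q * Nat.gcdB p q := by exact_mod_cast h1
  have h2' : ((Nat.gcd p q : ℕ) : ℝ) * (Nat.lcm p q : ℕ) = p * q := by exact_mod_cast h2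
  push_cast
  rw [div_add_div _ _ hp'.ne' hq'.ne', div_eq_div_iff (by positivity) hl'.ne']
  rw [← h2', h1']
  ring

open scoped Classical in
/-- **The number of the exponents at infinity in an arc.** -/
lemma arc {r p q : ℕ} {E : Fin 3 → Fin r → ℝ} (h : Ineq E) (h' : Ineq (fun i l => -E i l))
    (hp : 0 < p) (hq : 0 < q) (h0 : EquiR p (E 0)) (h1 : EquiR q (E 1)) (j k : ℤ) (hjk : j < k) :
    ((univ.filter fun l => ∃ m : ℤ, (j : ℝ) / (Nat.lcm p q : ℕ) < E 2 l + m ∧
      E 2 l + m < (k : ℝ) / (Nat.lcm p q : ℕ)).card : ℝ) ≤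
      r * (1 - 1 / p - 1 / q + (k - j) / (Nat.lcm p q : ℕ)) := by
  have hp' : (0 : ℝ) < p := by exact_mod_cast hp
  have hq' : (0 : ℝ) < q := by exact_mod_cast hq
  have hl : 0 < Nat.lcm p q := Nat.lcm_pos hp hq
  have hl' : (0 : ℝ) < (Nat.lcm p q : ℕ) := by exact_mod_cast hl
  set D : ℝ := ((Nat.lcm p q : ℕ) : ℝ) with hD
  obtain ⟨a, b, hab⟩ := bezout hp hq (-j)
  obtain ⟨a', b', hab'⟩ := bezout hp hq k
  rw [← hD] at hab hab'
  have k1 := ineq_gt h (a / p) (b / q) (j / D) (by rw [hab]; push_cast; ring)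
  have k2 := ineq_gt h' (a' / p) (b' / q) (-(k / D)) (by rw [hab']; ring)
  rw [equiR_sum hp h0, equiR_sum hq h1] at k1
  rw [equiR_sum hp h0.neg, equiR_sum hq h1.neg] at k2
  have key : ∀ l, (nextGt (j / D) (E 2 l) - j / D) + (nextGt (-(k / D)) (-E 2 l) + k / D) ≤
      1 + (k - j) / D - (if ∃ m : ℤ, (j : ℝ) / D < E 2 l + m ∧ E 2 l + m < (k : ℝ) / D then 1 else 0) := by
    intro l
    unfold nextGt
    have e1 : -(k / D) - -E 2 l = E 2 l - k / D := by ring
    rw [e1]
    have h2 : (k - j : ℝ) / D = k / D - j / D := by ring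
    rw [h2]
    split_ifs with hm
    · obtain ⟨m, hm1, hm2⟩ := hm
      have f1 : ⌊(j : ℝ) / D - E 2 l⌋ < m := by
        rw [Int.floor_lt]
        linarith
      have f2 : ⌊E 2 l - (k : ℝ) / D⌋ < -m := by
        rw [Int.floor_lt]
        push_cast
        linarith
      have f3 : ⌊(j : ℝ) / D - E 2 l⌋ + ⌊E 2 l - (k : ℝ) / D⌋ ≤ -2 := by omega
      have f4 : ((⌊(j : ℝ) / D - E 2 l⌋ : ℤ) : ℝ) + ⌊E 2 l - (k : ℝ) / D⌋ ≤ -2 := by exact_mod_cast f3
      linarith
    · have f1 : ⌊(j : ℝ) / D - E 2 l⌋ + ⌊E 2 l - (k : ℝ) / D⌋ ≤ ⌊((j : ℝ) / D - E 2 l) +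
          (E 2 l - (k : ℝ) / D)⌋ := Int.le_floor_add _ _
      have f2 : ⌊((j : ℝ) / D - E 2 l) + (E 2 l - (k : ℝ) / D)⌋ < 0 := by
        rw [Int.floor_lt]
        push_cast
        have : (j : ℝ) / D < k / D := by
          apply div_lt_div_of_pos_right _ hl'
          exact_mod_cast hjk
        linarith
      have f3 : ⌊(j : ℝ) / D - E 2 l⌋ + ⌊E 2 l - (k : ℝ) / D⌋ ≤ -1 := by omega
      have f4 : ((⌊(j : ℝ) / D - E 2 l⌋ : ℤ) : ℝ) + ⌊E 2 l - (k : ℝ) / D⌋ ≤ -1 := by exact_mod_cast f3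
      linarith
  have key2 := Finset.sum_le_sum fun l (_ : l ∈ (univ : Finset (Fin r))) => key l
  simp only [Finset.sum_add_distrib, Finset.sum_sub_distrib, Finset.sum_const, Finset.card_univ,
    Fintype.card_fin, nsmul_eq_mul, Finset.sum_boole] at key2
  have hab2 : (r : ℝ) * (a / p) + r * (b / q) = -(r * (j / D)) := by
    rw [← mul_add, hab]
    push_cast
    ring
  have hab3 : (r : ℝ) * (a' / p) + r * (b' / q) = r * (k / D) := by
    rw [← mul_add, hab']
  have e3 : (r : ℝ) * (1 - 1 / p - 1 / q + (k - j) / D) = r + r * ((k - j) / D) - r * (1 / p) - r * (1 / q) := by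
    ring
  rw [e3]
  have e4 : (r : ℝ) * (1 / 2 - 1 / (2 * p)) = r / 2 - r * (1 / p) / 2 := by
    field_simp
  have e5 : (r : ℝ) * (1 / 2 - 1 / (2 * q)) = r / 2 - r * (1 / q) / 2 := by
    field_simp
  rw [e4, e5] at k1 k2
  linarith

end Pool.Agent.L5helper23.RP
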