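import Pool.Agent.L5helper23.RP.Equi

set_option autoImplicit false

/-!
Arcs and relations for systems with exponents of bounded denominators at the finite points.
-/

namespace Pool.Agent.L5helper23.RP

open Pool.Agent.W432.PC Pool.Agent.W432.TC Pool.Agent.Y227.SS Finset

open scoped Classical in
/-- The number of the exponents at infinity in an arc, in general. -/
lemma arc' {r : ℕ} {E : Fin 3 → Fin r → ℝ} (h : Ineq E) (h' : Ineq (fun i l => -E i l))
    (a b s a' b' t : ℝ) (hs : a + b + s = 0) (ht : a' + b' + t = 0) (hst : s < t) :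
    ((univ.filter fun l => ∃ m : ℤ, s < E 2 l + m ∧ E 2 l + m < t).card : ℝ) ≤
      r * (t - s - 1) + ∑ l, Int.fract (E 0 l - a) + ∑ l, Int.fract (E 1 l - b) +
        ∑ l, Int.fract (a' - E 0 l) + ∑ l, Int.fract (b' - E 1 l) := by
  have k1 := ineq_gt h a b s hs
  have k2 := ineq_gt h' (-a') (-b') (-t) (by linarith)
  simp only [nextGe_eq] at k1 k2
  have e1 : ∀ y z : ℝ, -y - -z = z - y := fun y z => by ring
  simp only [e1] at k2
  have key : ∀ l, (nextGt s (E 2 l) - s) + (nextGt (-t) (-E 2 l) + t) ≤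
      1 + (t - s) - (if ∃ m : ℤ, s < E 2 l + m ∧ E 2 l + m < t then 1 else 0) := by
    intro l
    unfold nextGt
    rw [e1 t (E 2 l)]
    split_ifs with hm
    · obtain ⟨m, hm1, hm2⟩ := hm
      have f1 : ⌊s - E 2 l⌋ < m := by
        rw [Int.floor_lt]
        linarith
      have f2 : ⌊E 2 l - t⌋ < -m := by
        rw [Int.floor_lt]
        push_cast
        linarith
      have f3 : ⌊s - E 2 l⌋ + ⌊E 2 l - t⌋ ≤ -2 := by omega
      have f4 : ((⌊s - E 2 l⌋ : ℤ) : ℝ) + ⌊E 2 l - t⌋ ≤ -2 := by exact_mod_cast f3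
      linarith
    · have f1 : ⌊s - E 2 l⌋ + ⌊E 2 l - t⌋ ≤ ⌊(s - E 2 l) + (E 2 l - t)⌋ := Int.le_floor_add _ _
      have f2 : ⌊(s - E 2 l) + (E 2 l - t)⌋ < 0 := by
        rw [Int.floor_lt]
        push_cast
        linarith
      have f3 : ⌊s - E 2 l⌋ + ⌊E 2 l - t⌋ ≤ -1 := by omega
      have f4 : ((⌊s - E 2 l⌋ : ℤ) : ℝ) + ⌊E 2 l - t⌋ ≤ -1 := by exact_mod_cast f3
      linarith
  have key2 := Finset.sum_le_sum fun l (_ : l ∈ (univ : Finset (Fin r))) => key l
  simp only [Finset.sum_add_distrib, Finset.sum_sub_distrib, Finset.sum_const, Finset.card_univ,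
    Fintype.card_fin, nsmul_eq_mul, Finset.sum_boole] at key2 k1 k2
  have e5 : (r : ℝ) * a + r * b = -(r * s) := by
    rw [← mul_add, show a + b = -s by linarith]
    ring
  have e6 : (r : ℝ) * -a' + r * -b' = r * t := by
    rw [← mul_add, show -a' + -b' = t by linarith]
  have e7 : (r : ℝ) * (t - s - 1) = r * t - r * s - r := by ring
  rw [e7]
  linarith

/-- the sum of the fractional parts over a period -/
lemma sum_fract (p : ℕ) (hp : 0 < p) (m : ℤ) :
    ∑ i ∈ range p, Int.fract (((m - i : ℤ) : ℝ) / p) = ((p : ℝ) - 1) / 2 := by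
  have hp' : (0 : ℝ) < p := by exact_mod_cast hp
  have hpz : (0 : ℤ) < p := by exact_mod_cast hp
  have h1 : ∀ i ∈ range p, Int.fract (((m - i : ℤ) : ℝ) / p) = (((m - i) % (p : ℤ) : ℤ) : ℝ) / p := by
    intro i _
    have := Int.fract_div_intCast_eq_div_intCast_mod (k := ℝ) (m := (m - i : ℤ)) (n := p)
    exact this
  rw [Finset.sum_congr rfl h1, ← Finset.sum_div]
  have h2 : ∑ i ∈ range p, (((m - i) % (p : ℤ) : ℤ) : ℝ) = ∑ j ∈ range p, (j : ℝ) := by
    refine Finset.sum_bij (fun (i : ℕ) _ => ((m - i) % (p : ℤ)).toNat) ?_ ?_ ?_ ?_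
    · intro i _
      rw [mem_range]
      have h3 := Int.emod_lt_of_pos (m - i) hpz
      have h4 := Int.emod_nonneg (m - i) hpz.ne'
      omega
    · intro i hi j hj hij
      rw [mem_range] at hi hj
      have h4 := Int.emod_nonneg (m - i) hpz.ne'
      have h5 := Int.emod_nonneg (m - j) hpz.ne'
      have h6 : (m - i) % (p : ℤ) = (m - j) % (p : ℤ) := by
        omega
      have h7 : (p : ℤ) ∣ (j : ℤ) - i := by
        have h8 : ((m - i) - (m - j)) % (p : ℤ) = 0 := by
          rw [Int.sub_emod, h6, sub_self, Int.zero_emod]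
        have h9 : (m - i) - (m - j) = (j : ℤ) - i := by ring
        rw [h9] at h8
        exact Int.dvd_of_emod_eq_zero h8
      have h8 : (j : ℤ) - i = 0 := by
        apply Int.eq_zero_of_abs_lt_dvd h7
        rw [abs_lt]
        constructor <;> omega
      omega
    · intro j hj
      rw [mem_range] at hj
      have h3 := Int.emod_lt_of_pos (m - j) hpz
      have h4 := Int.emod_nonneg (m - j) hpz.ne'
      refine ⟨((m - j) % (p : ℤ)).toNat, by rw [mem_range]; omega, ?_⟩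
      have h5 : ((((m - j) % (p : ℤ)).toNat : ℕ) : ℤ) = (m - j) % (p : ℤ) := Int.toNat_of_nonneg h4
      rw [h5]
      have h6 : (m - (m - j) % (p : ℤ)) % (p : ℤ) = j := by
        have h7 : m - (m - j) % (p : ℤ) = j + p * ((m - j) / (p : ℤ)) := by
          have := Int.emod_add_mul_ediv (m - j) (p : ℤ)
          linarith
        rw [h7, Int.add_mul_emod_self_left]
        exact Int.emod_eq_of_lt (by omega) (by omega)
      rw [h6]
      simp
    · intro i _
      have h4 := Int.emod_nonneg (m - i) hpz.ne'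
      have h5 : ((((m - i) % (p : ℤ)).toNat : ℕ) : ℤ) = (m - i) % (p : ℤ) := Int.toNat_of_nonneg h4
      have h6 : ((((m - i) % (p : ℤ)).toNat : ℕ) : ℝ) = (((m - i) % (p : ℤ) : ℤ) : ℝ) := by
        exact_mod_cast congrArg (fun k : ℤ => (k : ℝ)) h5
      rw [h6]
  rw [h2]
  have h8 : ∀ n : ℕ, ∑ j ∈ range n, (j : ℝ) = n * (n - 1) / 2 := by
    intro n
    induction n with
    | zero => simp
    | succ n ih =>
      rw [Finset.sum_range_succ, ih]
      push_cast
      ring
  rw [h8 p]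
  field_simp

lemma sum_fract_neg (p : ℕ) (hp : 0 < p) (m : ℤ) :
    ∑ i ∈ range p, Int.fract (((i - m : ℤ) : ℝ) / p) = ((p : ℝ) - 1) / 2 := by
  have hp' : (0 : ℝ) < p := by exact_mod_cast hp
  rw [← Finset.sum_range_reflect]
  rw [← sum_fract p hp ((p : ℤ) - 1 - m)]
  refine Finset.sum_congr rfl fun i hi => ?_
  rw [mem_range] at hi
  congr 2
  push_cast [Nat.cast_sub (show i ≤ p - 1 by omega), Nat.cast_sub (show 1 ≤ p by omega)]
  ring

/-- the averages over a period -/
lemma sum_F {r p : ℕ} (hp : 0 < p) (f : Fin r → ℝ) (hf : ∀ l, ∃ m : ℤ, (p : ℝ) * f l = m) :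
    ∑ i ∈ range p, ∑ l, Int.fract (f l - (i : ℝ) / p) = r * (((p : ℝ) - 1) / 2) := by
  have hp' : (0 : ℝ) < p := by exact_mod_cast hp
  rw [Finset.sum_comm]
  have h1 : ∀ l : Fin r, ∑ i ∈ range p, Int.fract (f l - (i : ℝ) / p) = ((p : ℝ) - 1) / 2 := by
    intro l
    obtain ⟨m, hm⟩ := hf l
    rw [← sum_fract p hp m]
    refine Finset.sum_congr rfl fun i _ => ?_
    congr 1
    push_cast
    rw [← hm]
    field_simp
  rw [Finset.sum_congr rfl fun l _ => h1 l, Finset.sum_const, Finset.card_univ, Fintype.card_fin,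
    nsmul_eq_mul]

lemma sum_F' {r p : ℕ} (hp : 0 < p) (k : ℤ) (f : Fin r → ℝ) (hf : ∀ l, ∃ m : ℤ, (p : ℝ) * f l = m) :
    ∑ i ∈ range p, ∑ l, Int.fract (((i - k : ℤ) : ℝ) / p - f l) = r * (((p : ℝ) - 1) / 2) := by
  have hp' : (0 : ℝ) < p := by exact_mod_cast hp
  rw [Finset.sum_comm]
  have h1 : ∀ l : Fin r, ∑ i ∈ range p, Int.fract (((i - k : ℤ) : ℝ) / p - f l) = ((p : ℝ) - 1) / 2 := by
    intro l
    obtain ⟨m, hm⟩ := hf l
    rw [← sum_fract_neg p hp (k + m)]
    refine Finset.sum_congr rfl fun i _ => ?_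
    congr 1
    push_cast
    rw [← hm]
    field_simp
    ring
  rw [Finset.sum_congr rfl fun l _ => h1 l, Finset.sum_const, Finset.card_univ, Fintype.card_fin,
    nsmul_eq_mul]

/-- **Many exponents at infinity satisfy a relation.** -/
lemma exists_relIn' {r : ℕ} {L : AddSubgroup (ExponentIndex 2 r → ℤ)} {c : ExponentIndex 2 r → ℚ}
    (H : ∀ z, InCoset L c z → WeylBoth z) {x : ExponentIndex 2 r → ℚ}
    (hx : InCoset L c (fun i => (x i : ℝ))) {p q : ℕ} (hp : 0 < p) (hq : 0 < q)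
    (h0 : ∀ l, ∃ m : ℤ, (p : ℚ) * x (Sum.inl (0, l)) = m)
    (h1 : ∀ l, ∃ m : ℤ, (q : ℚ) * x (Sum.inl (1, l)) = m)
    (A : Finset (Fin r)) (hA : bd r p q 1 < A.card) :
    ∃ m, RelIn L A m := by
  classical
  by_contra hcon
  push Not at hcon
  have hp' : (0 : ℝ) < p := by exact_mod_cast hp
  have hq' : (0 : ℝ) < q := by exact_mod_cast hq
  have hl : 0 < Nat.lcm p q := Nat.lcm_pos hp hq
  have hl' : (0 : ℝ) < (Nat.lcm p q : ℕ) := by exact_mod_cast hl
  have hlq : (0 : ℚ) < (Nat.lcm p q : ℕ) := by exact_mod_cast hl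
  obtain ⟨i₀, j₀, hij₀⟩ := bezout hp hq 1
  set D : ℝ := ((Nat.lcm p q : ℕ) : ℝ) with hD
  set f : Fin r → ℝ := fun l => (x (Sum.inl (0, l)) : ℝ) with hf
  set g : Fin r → ℝ := fun l => (x (Sum.inl (1, l)) : ℝ) with hg
  have hf' : ∀ l, ∃ m : ℤ, (p : ℝ) * f l = m := fun l => by
    obtain ⟨m, hm⟩ := h0 l
    refine ⟨m, ?_⟩
    show (p : ℝ) * (x (Sum.inl (0, l)) : ℝ) = m
    exact_mod_cast hm
  have hg' : ∀ l, ∃ m : ℤ, (q : ℝ) * g l = m := fun l => by
    obtain ⟨m, hm⟩ := h1 l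
    refine ⟨m, ?_⟩
    show (q : ℝ) * (x (Sum.inl (1, l)) : ℝ) = m
    exact_mod_cast hm
  have key : ∀ i j : ℕ, (A.card : ℝ) ≤ r * (1 / D - 1) + ∑ l, Int.fract (f l - (i : ℝ) / p) +
      ∑ l, Int.fract (g l - (j : ℝ) / q) + ∑ l, Int.fract (((i - i₀ : ℤ) : ℝ) / p - f l) +
        ∑ l, Int.fract (((j - j₀ : ℤ) : ℝ) / q - g l) := by
    intro i j
    obtain ⟨z, hz, hz1, hz2⟩ := exists_point hx A hcon
      ((i : ℚ) / p + (j : ℚ) / q - 1 / (2 * (Nat.lcm p q : ℕ)))
    have hW := H z hz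
    unfold WeylBoth at hW
    let E : Fin 3 → Fin r → ℝ := ![fun l => z (Sum.inl (0, l)), fun l => z (Sum.inl (1, l)),
      fun l => -z (Sum.inr l)]
    have hE1 : Ineq E := by
      apply ineq_of_weyl
      have h2 := hW.1
      convert h2 using 1
      · funext j l
        fin_cases j <;> rfl
      · funext l
        simp [E]
    have hE2 : Ineq (fun i l => -E i l) := by
      apply ineq_of_weyl
      have h2 := hW.2
      convert h2 using 1
      · funext j l
        fin_cases j <;> rfl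
      · funext l
        simp [E]
    have e0 : E 0 = f := by
      funext l
      exact hz1 (0, l)
    have e1 : E 1 = g := by
      funext l
      exact hz1 (1, l)
    have ht : ((i - i₀ : ℤ) : ℝ) / p + ((j - j₀ : ℤ) : ℝ) / q = (i : ℝ) / p + (j : ℝ) / q - 1 / D := by
      push_cast at hij₀ ⊢
      rw [← hij₀]
      ring
    have h2 := arc' hE1 hE2 ((i : ℝ) / p) ((j : ℝ) / q) (-((i : ℝ) / p + (j : ℝ) / q))
      (((i - i₀ : ℤ) : ℝ) / p) (((j - j₀ : ℤ) : ℝ) / q) (-((i : ℝ) / p + (j : ℝ) / q) + 1 / D)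
      (by ring) (by rw [ht]; ring) (by
        have : 0 < 1 / D := by positivity
        linarith)
    rw [e0, e1] at h2
    have h3 : A ⊆ univ.filter fun l => ∃ m : ℤ, -((i : ℝ) / p + (j : ℝ) / q) < E 2 l + m ∧
        E 2 l + m < -((i : ℝ) / p + (j : ℝ) / q) + 1 / D := by
      intro l hl2
      rw [mem_filter]
      refine ⟨mem_univ _, 0, ?_⟩
      have h4 : E 2 l = -((i : ℝ) / p + (j : ℝ) / q) + 1 / D / 2 := by
        show -z (Sum.inr l) = _
        rw [hz2 l hl2, hD]
        push_cast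
        field_simp
        ring
      rw [h4]
      have h5 : 0 < 1 / D := by positivity
      push_cast
      constructor <;> linarith
    have h4 : (A.card : ℝ) ≤ ((univ.filter fun l => ∃ m : ℤ, -((i : ℝ) / p + (j : ℝ) / q) < E 2 l + m ∧
        E 2 l + m < -((i : ℝ) / p + (j : ℝ) / q) + 1 / D).card : ℝ) := by
      exact_mod_cast Finset.card_le_card h3
    have h5 : (r : ℝ) * (-((i : ℝ) / p + (j : ℝ) / q) + 1 / D - -((i : ℝ) / p + (j : ℝ) / q) - 1) =
        r * (1 / D - 1) := by ring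
    rw [h5] at h2
    linarith
  have hsum := Finset.sum_le_sum fun i (_ : i ∈ range p) => Finset.sum_le_sum fun j (_ : j ∈ range q) =>
    key i j
  simp only [Finset.sum_add_distrib, Finset.sum_const, card_range, nsmul_eq_mul, ← Finset.mul_sum] at hsum
  rw [sum_F hp f hf', sum_F hq g hg', sum_F' hp i₀ f hf', sum_F' hq j₀ g hg'] at hsum
  have hfin : (p : ℝ) * (q * A.card) ≤ p * (q * bd r p q 1) := by
    have e : (p : ℝ) * (q * bd r p q 1) = p * (q * (r * (1 / D - 1))) + q * (r * (((p : ℝ) - 1) / 2)) +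
        p * (r * (((q : ℝ) - 1) / 2)) + q * (r * (((p : ℝ) - 1) / 2)) + p * (r * (((q : ℝ) - 1) / 2)) := by
      unfold bd
      push_cast
      rw [← hD]
      field_simp
      ring
    rw [e]
    linarith
  have h6 : (A.card : ℝ) ≤ bd r p q 1 := le_of_mul_le_mul_left (le_of_mul_le_mul_left hfin hp') hq'
  linarith

end Pool.Agent.L5helper23.RP
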