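import Pool.Agent.L5helper23.RP.Cyc

set_option autoImplicit false

/-!
Independent exponents at infinity: the final bounds.
-/

namespace Pool.Agent.L5helper23.RP

open Pool.Agent.W432.PC Pool.Agent.W432.TC Pool.Agent.Y227.SS Finset

/-- the classes modulo the integers of the numbers `f l`, as numbers in `[0, 1)` -/
def classes {r : ℕ} (f : Fin r → ℚ) : Finset ℚ := univ.image fun l => Int.fract (f l)

lemma sum_cl_classes {r : ℕ} (f : Fin r → ℚ) : ∑ v ∈ classes f, cl (fun l => (f l : ℝ)) (v : ℝ) = r := by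
  classical
  have h1 := Finset.card_eq_sum_card_image (fun l => Int.fract (f l)) (univ : Finset (Fin r))
  rw [Finset.card_univ, Fintype.card_fin] at h1
  conv_rhs => rw [h1]
  refine Finset.sum_congr rfl fun v hv => ?_
  unfold cl
  congr 1
  ext l
  simp only [mem_filter, mem_univ, true_and]
  obtain ⟨l', -, hl'⟩ := Finset.mem_image.1 hv
  constructor
  · rintro ⟨k, hk⟩
    have hk' : f l = v + k := by exact_mod_cast hk
    rw [hk', Int.fract_add_intCast, ← hl', Int.fract_fract]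
  · intro h
    refine ⟨⌊f l⌋, ?_⟩
    have h2 : f l = v + (⌊f l⌋ : ℤ) := by
      rw [← h]
      exact (Int.fract_add_floor (f l)).symm
    exact_mod_cast congrArg (fun q : ℚ => (q : ℝ)) h2

/-- the sums of a class at `0` and of a class at `1` are distinct -/
def DistinctSums {r : ℕ} (f g : Fin r → ℚ) : Prop :=
  ∀ l j l' j', (∃ k : ℤ, f l + g j - (f l' + g j') = k) → ∃ k : ℤ, f l - f l' = k

lemma fract_eq_of {u v : ℚ} (h : ∃ k : ℤ, u - v = k) : Int.fract u = Int.fract v := by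
  obtain ⟨k, hk⟩ := h
  have : u = v + k := by linarith
  rw [this, Int.fract_add_intCast]

/-- **Many exponents at infinity satisfy a relation with the exponents at `0` and `1`.** -/
lemma exists_relIn_classes {r : ℕ} {L : AddSubgroup (ExponentIndex 2 r → ℤ)}
    {c : ExponentIndex 2 r → ℚ} (H : ∀ z, InCoset L c z → WeylBoth z) {x : ExponentIndex 2 r → ℚ}
    (hx : InCoset L c (fun i => (x i : ℝ))) (f g : Fin r → ℚ) (h0 : ∀ l, x (Sum.inl (0, l)) = f l)
    (h1 : ∀ l, x (Sum.inl (1, l)) = g l) (hd : DistinctSums f g) (A : Finset (Fin r))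
    (hA : (r : ℝ) * (1 - 1 / (classes f).card) * (1 - 1 / (classes g).card) < A.card) :
    ∃ m, RelIn L A m := by
  classical
  by_contra hcon
  push Not at hcon
  rcases Nat.eq_zero_or_pos r with hr | hr
  · subst hr
    have : A.card = 0 := Finset.card_eq_zero.2 (Finset.eq_empty_of_isEmpty _)
    rw [this] at hA
    simp at hA
  have hne : ∀ f : Fin r → ℚ, (classes f).Nonempty := fun f =>
    ⟨_, Finset.mem_image_of_mem _ (mem_univ (⟨0, hr⟩ : Fin r))⟩
  have hk0 : 0 < (classes f).card := (hne f).card_pos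
  have hk1 : 0 < (classes g).card := (hne g).card_pos
  have hk0' : (0 : ℝ) < (classes f).card := by exact_mod_cast hk0
  have hk1' : (0 : ℝ) < (classes g).card := by exact_mod_cast hk1
  have hb := indep_gen H hx A hcon (classes f ×ˢ classes g) ((hne f).product (hne g)) (by
    rintro ⟨v, w⟩ hs ⟨v', w'⟩ hs' h
    rw [mem_product] at hs hs'
    obtain ⟨l, -, hl⟩ := Finset.mem_image.1 hs.1
    obtain ⟨j, -, hj⟩ := Finset.mem_image.1 hs.2
    obtain ⟨l', -, hl'⟩ := Finset.mem_image.1 hs'.1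
    obtain ⟨j', -, hj'⟩ := Finset.mem_image.1 hs'.2
    simp only at hl hj hl' hj' h
    have e1 : ∃ k : ℤ, f l + g j - (f l' + g j') = k := by
      obtain ⟨k, hk⟩ := Int.fract_eq_fract.1 h
      refine ⟨-k + ⌊f l⌋ + ⌊g j⌋ - ⌊f l'⌋ - ⌊g j'⌋, ?_⟩
      rw [← hl, ← hj, ← hl', ← hj'] at hk
      simp only [Int.fract] at hk
      push_cast
      linarith
    have e2 := hd l j l' j' e1
    have e3 : v = v' := by
      rw [← hl, ← hl']
      exact fract_eq_of e2
    have e4 : w = w' := by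
      rw [← hj, ← hj']
      refine fract_eq_of ?_
      obtain ⟨k, hk⟩ := e1
      obtain ⟨k', hk'⟩ := e2
      exact ⟨k - k', by push_cast; linarith⟩
    rw [e3, e4])
  have hf : (fun l => (x (Sum.inl (0, l)) : ℝ)) = fun l => (f l : ℝ) := by
    funext l
    rw [h0]
  have hg : (fun l => (x (Sum.inl (1, l)) : ℝ)) = fun l => (g l : ℝ) := by
    funext l
    rw [h1]
  rw [hf, hg, Finset.card_product, Finset.sum_add_distrib, Finset.sum_product, Finset.sum_product] at hb
  simp only [Finset.sum_const, nsmul_eq_mul] at hb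
  have s0 : ∑ v ∈ classes f, ((classes g).card : ℝ) * (cl (fun l => (f l : ℝ)) (v : ℝ) : ℝ) =
      (classes g).card * r := by
    rw [← Finset.mul_sum]
    congr 1
    exact_mod_cast sum_cl_classes f
  have s1 : ∑ w ∈ classes g, (cl (fun l => (g l : ℝ)) (w : ℝ) : ℝ) = r := by
    exact_mod_cast sum_cl_classes g
  rw [s0, s1] at hb
  have hfin : ((classes f).card : ℝ) * ((classes g).card * A.card) ≤
      (classes f).card * ((classes g).card *
        ((r : ℝ) * (1 - 1 / (classes f).card) * (1 - 1 / (classes g).card))) := by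
    have e : ((classes f).card : ℝ) * ((classes g).card *
        ((r : ℝ) * (1 - 1 / (classes f).card) * (1 - 1 / (classes g).card))) =
        r * ((classes f).card - 1) * ((classes g).card - 1) := by
      field_simp
    rw [e]
    push_cast at hb
    linarith
  have h6 : (A.card : ℝ) ≤ (r : ℝ) * (1 - 1 / (classes f).card) * (1 - 1 / (classes g).card) :=
    le_of_mul_le_mul_left (le_of_mul_le_mul_left hfin hk0') hk1'
  linarith

/-- the relation, cleared of denominators -/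
lemma clear {r M₁ : ℕ} {L : AddSubgroup (ExponentIndex 2 r → ℤ)} {c x : ExponentIndex 2 r → ℚ}
    (hx : InCoset L c (fun i => (x i : ℝ))) (hM : ∀ i, ∃ k : ℤ, (M₁ : ℚ) * c i = k)
    {m : ExponentIndex 2 r → ℤ} (hm : m ∈ L) :
    ∃ z : ℤ, ∑ i, ((M₁ * m i : ℤ) : ℚ) * x i = z := by
  rw [inCoset_rat] at hx
  obtain ⟨z, hz⟩ := hx m hm
  choose k hk using hM
  refine ⟨M₁ * z + ∑ i, m i * k i, ?_⟩
  push_cast
  rw [← hz]
  simp only [mul_sub, Finset.sum_sub_distrib, ← hk]
  rw [Finset.mul_sum, Finset.mul_sum, ← Finset.sum_sub_distrib, ← Finset.sum_add_distrib]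
  exact Finset.sum_congr rfl fun i _ => by ring

/-- The conclusion on the relations: any set of too many exponents at infinity satisfies a relation. -/
def Relations (B : ℕ) {r : ℕ} (lam : Fin 3 → Fin r → ℚ) : Prop :=
  (DistinctSums (lam 0) (lam 1) → ∀ A : Finset (Fin r),
    (r : ℝ) * (1 - 1 / (classes (lam 0)).card) * (1 - 1 / (classes (lam 1)).card) < A.card →
      ∃ k : Fin 3 → Fin r → ℤ, (∃ l, k 2 l ≠ 0) ∧ (∀ l, l ∉ A → k 2 l = 0) ∧
        (∀ i l, |k i l| ≤ B) ∧ ∃ z : ℤ, ∑ i, ∑ l, (k i l : ℚ) * lam i l = z) ∧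
  ∀ p q : ℕ, 0 < p → 0 < q → (∀ l, ∃ m : ℤ, (p : ℚ) * lam 0 l = m) →
    (∀ l, ∃ m : ℤ, (q : ℚ) * lam 1 l = m) → ∀ A : Finset (Fin r), bd r p q 1 < A.card →
      ∃ k : Fin r → ℤ, (∃ l, k l ≠ 0) ∧ (∀ l, l ∉ A → k l = 0) ∧ (∀ l, |k l| ≤ B * p * q) ∧
        ∃ z : ℤ, ∑ l, (k l : ℚ) * lam 2 l = z

lemma relations {r B M₁ : ℕ} (hM₁ : 0 < M₁) {lam : Fin 3 → Fin r → ℚ}
    {L : AddSubgroup (ExponentIndex 2 r → ℤ)} {c : ExponentIndex 2 r → ℚ}
    (hx : InCoset L c (fun i => ((Sum.elim (fun p : Fin 2 × Fin r => lam p.1.castSucc p.2)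
      (fun l => -lam 2 l) : ExponentIndex 2 r → ℚ) i : ℝ)))
    (H : ∀ z, InCoset L c z → WeylBoth z)
    (hc : ∀ i, ∃ k : ℤ, (M₁ : ℚ) * c i = k)
    (hB : ∀ A : Finset (Fin r), (∃ m, RelIn L A m) → ∃ m, RelIn L A m ∧ ∀ i, |m i| ≤ B) :
    Relations (M₁ * B) lam := by
  classical
  have hM₁z : (M₁ : ℤ) ≠ 0 := by exact_mod_cast hM₁.ne'
  refine ⟨fun hd A hA => ?_, fun p q hp hq h0 h1 A hA => ?_⟩
  · obtain ⟨m, ⟨hmL, ⟨l₀, hl₀⟩, hmA⟩, hmB⟩ := hB A (exists_relIn_classes H hx (lam 0) (lam 1)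
      (fun l => rfl) (fun l => rfl) hd A hA)
    obtain ⟨z, hz⟩ := clear hx hc hmL
    refine ⟨![fun l => M₁ * m (Sum.inl (0, l)), fun l => M₁ * m (Sum.inl (1, l)),
      fun l => -(M₁ * m (Sum.inr l))], ⟨l₀, ?_⟩, fun l hl => ?_, fun i l => ?_, z, ?_⟩
    · show -((M₁ : ℤ) * m (Sum.inr l₀)) ≠ 0
      exact neg_ne_zero.2 (mul_ne_zero hM₁z hl₀)
    · show -((M₁ : ℤ) * m (Sum.inr l)) = 0
      rw [hmA l hl, mul_zero, neg_zero]
    · have key : ∀ j, |(M₁ : ℤ) * m j| ≤ ((M₁ * B : ℕ) : ℤ) := by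
        intro j
        rw [abs_mul, Nat.abs_cast]
        push_cast
        exact mul_le_mul_of_nonneg_left (hmB j) (by positivity)
      fin_cases i
      · exact key _
      · exact key _
      · show |-((M₁ : ℤ) * m (Sum.inr l))| ≤ _
        rw [abs_neg]
        exact key _
    · rw [← hz, Fin.sum_univ_three, Fintype.sum_sum_type, Fintype.sum_prod_type, Fin.sum_univ_two]
      simp only [Sum.elim_inl, Sum.elim_inr]
      congr 1
      refine Finset.sum_congr rfl fun l _ => ?_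
      show ((-((M₁ : ℤ) * m (Sum.inr l)) : ℤ) : ℚ) * lam 2 l = _
      push_cast
      ring
  · obtain ⟨m, ⟨hmL, ⟨l₀, hl₀⟩, hmA⟩, hmB⟩ := hB A (exists_relIn' H hx hp hq
      (fun l => h0 l) (fun l => h1 l) A hA)
    obtain ⟨z, hz⟩ := clear hx hc hmL
    have hpz : (p : ℤ) ≠ 0 := by exact_mod_cast hp.ne'
    have hqz : (q : ℤ) ≠ 0 := by exact_mod_cast hq.ne'
    choose s hs using h0
    choose t ht using h1
    refine ⟨fun l => (M₁ * m (Sum.inr l)) * (p * q), ⟨l₀, ?_⟩, fun l hl => ?_, fun l => ?_,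
      -(p * q * z - q * ∑ l, M₁ * m (Sum.inl (0, l)) * s l - p * ∑ l, M₁ * m (Sum.inl (1, l)) * t l), ?_⟩
    · exact mul_ne_zero (mul_ne_zero hM₁z hl₀) (mul_ne_zero hpz hqz)
    · show (M₁ : ℤ) * m (Sum.inr l) * (p * q) = 0
      rw [hmA l hl, mul_zero, zero_mul]
    · show |(M₁ : ℤ) * m (Sum.inr l) * (p * q)| ≤ _
      rw [abs_mul, abs_mul, abs_mul, Nat.abs_cast, Nat.abs_cast, Nat.abs_cast]
      push_cast
      have := hmB (Sum.inr l)
      calc (M₁ : ℤ) * |m (Sum.inr l)| * (p * q) ≤ M₁ * B * (p * q) := by gcongr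
        _ = M₁ * B * p * q := by ring
    · rw [Fintype.sum_sum_type, Fintype.sum_prod_type, Fin.sum_univ_two] at hz
      simp only [Sum.elim_inl, Sum.elim_inr, Fin.castSucc_zero, Fin.castSucc_one] at hz
      push_cast at hz ⊢
      rw [← hz]
      have e1 : (q : ℚ) * ∑ l, (M₁ : ℚ) * m (Sum.inl (0, l)) * s l =
          p * q * ∑ l, (M₁ : ℚ) * m (Sum.inl (0, l)) * lam 0 l := by
        rw [Finset.mul_sum, Finset.mul_sum]
        refine Finset.sum_congr rfl fun l _ => ?_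
        rw [← hs l]
        ring
      have e2 : (p : ℚ) * ∑ l, (M₁ : ℚ) * m (Sum.inl (1, l)) * t l =
          p * q * ∑ l, (M₁ : ℚ) * m (Sum.inl (1, l)) * lam 1 l := by
        rw [Finset.mul_sum, Finset.mul_sum]
        refine Finset.sum_congr rfl fun l _ => ?_
        rw [← ht l]
        ring
      have e3 : ∑ l, (M₁ : ℚ) * m (Sum.inr l) * (p * q) * lam 2 l =
          -(p * q * ∑ l, (M₁ : ℚ) * m (Sum.inr l) * -lam 2 l) := by
        rw [Finset.mul_sum, ← Finset.sum_neg_distrib]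
        exact Finset.sum_congr rfl fun l _ => by ring
      rw [e1, e2, e3]
      ring

end Pool.Agent.L5helper23.RP
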