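import Pool.Agent.L5helper23.RP.Arc2

set_option autoImplicit false

/-!
Independent exponents at infinity in general: all arcs between the opposite sums of two exponents.
-/

namespace Pool.Agent.L5helper23.RP

open Pool.Agent.W432.PC Pool.Agent.W432.TC Pool.Agent.Y227.SS Finset

/-- cyclic enumeration -/
lemma cyclic (S : Finset (ℚ × ℚ)) (hS : S.Nonempty)
    (hinj : ∀ s ∈ S, ∀ s' ∈ S, Int.fract (-(s.1 + s.2)) = Int.fract (-(s'.1 + s'.2)) → s = s') :
    ∃ (t : ℕ → ℚ) (s : ℕ → ℚ × ℚ), (∀ k < S.card, t k < t (k + 1)) ∧ t S.card = t 0 + 1 ∧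
      s S.card = s 0 ∧ (∀ k, ∃ m : ℤ, t k = -((s k).1 + (s k).2) + m) ∧
      ∀ G : ℚ × ℚ → ℝ, ∑ k ∈ range S.card, G (s k) = ∑ x ∈ S, G x := by
  classical
  set φ : ℚ × ℚ → ℚ := fun s => Int.fract (-(s.1 + s.2)) with hφ
  have hinj' : Set.InjOn φ (S : Set (ℚ × ℚ)) := fun s hs s' hs' h => hinj s hs s' hs' h
  have hcard : (S.image φ).card = S.card := Finset.card_image_of_injOn hinj'
  have hn : 0 < S.card := hS.card_pos
  let e := (S.image φ).orderIsoOfFin hcard
  have hσ : ∀ x : {x // x ∈ S.image φ}, ∃ s ∈ S, φ s = x := fun x => Finset.mem_image.1 x.2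
  choose σ hσS hσ using hσ
  refine ⟨fun k => ((e ⟨k % S.card, Nat.mod_lt _ hn⟩ : {x // x ∈ S.image φ}) : ℚ) + (k / S.card : ℕ),
    fun k => σ (e ⟨k % S.card, Nat.mod_lt _ hn⟩), ?_, ?_, ?_, ?_, ?_⟩
  · intro k hk
    beta_reduce
    have h1 : k % S.card = k := Nat.mod_eq_of_lt hk
    have h2 : k / S.card = 0 := Nat.div_eq_of_lt hk
    rcases Nat.lt_or_ge (k + 1) S.card with h3 | h3
    · have h4 : (k + 1) % S.card = k + 1 := Nat.mod_eq_of_lt h3
      have h5 : (k + 1) / S.card = 0 := Nat.div_eq_of_lt h3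
      have h6 : e ⟨k % S.card, Nat.mod_lt _ hn⟩ < e ⟨(k + 1) % S.card, Nat.mod_lt _ hn⟩ := by
        apply e.strictMono
        rw [Fin.mk_lt_mk]
        omega
      have h7 : ((e ⟨k % S.card, Nat.mod_lt _ hn⟩ : {x // x ∈ S.image φ}) : ℚ) <
        ((e ⟨(k + 1) % S.card, Nat.mod_lt _ hn⟩ : {x // x ∈ S.image φ}) : ℚ) := h6
      rw [h2, h5]
      linarith
    · have h4 : k + 1 = S.card := by omega
      have h5 : (k + 1) / S.card = 1 := by rw [h4]; exact Nat.div_self hn
      rw [h2, h5]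
      have h6 : ∀ x : {x // x ∈ S.image φ}, (0 : ℚ) ≤ x ∧ (x : ℚ) < 1 := by
        intro x
        rw [← hσ x]
        exact ⟨Int.fract_nonneg _, Int.fract_lt_one _⟩
      have h7 := (h6 (e ⟨k % S.card, Nat.mod_lt _ hn⟩)).2
      have h8 := (h6 (e ⟨(k + 1) % S.card, Nat.mod_lt _ hn⟩)).1
      push_cast
      linarith
  · simp only [Nat.mod_self, Nat.div_self hn, Nat.zero_mod, Nat.zero_div]
    push_cast
    ring
  · simp only [Nat.mod_self, Nat.zero_mod]
  · intro k
    have h1 := hσ (e ⟨k % S.card, Nat.mod_lt _ hn⟩)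
    refine ⟨-⌊-((σ (e ⟨k % S.card, Nat.mod_lt _ hn⟩)).1 + (σ (e ⟨k % S.card, Nat.mod_lt _ hn⟩)).2)⌋ +
      (k / S.card : ℕ), ?_⟩
    beta_reduce
    rw [← h1]
    generalize k / S.card = d
    simp only [hφ, Int.fract]
    push_cast
    ring
  · intro G
    have hσφ : ∀ s (hs : s ∈ S), σ ⟨φ s, Finset.mem_image_of_mem φ hs⟩ = s := by
      intro s hs
      exact hinj' (hσS _) hs (hσ _)
    rw [Finset.sum_range (fun k => G (σ (e ⟨k % S.card, Nat.mod_lt _ hn⟩)))]
    have h1 : ∀ i : Fin S.card, G (σ (e ⟨(i : ℕ) % S.card, Nat.mod_lt _ hn⟩)) = G (σ (e i)) := by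
      intro i
      congr 3
      exact Fin.ext (Nat.mod_eq_of_lt i.2)
    rw [Finset.sum_congr rfl fun i _ => h1 i]
    have h0 : ∑ i, G (σ (e i)) = ∑ x : {x // x ∈ S.image φ}, G (σ x) :=
      Equiv.sum_comp e.toEquiv (fun x => G (σ x))
    rw [h0]
    have h2 : ∑ x : {x // x ∈ S.image φ}, G (σ x) = ∑ s : {s // s ∈ S}, G s := by
      symm
      refine Fintype.sum_bijective (fun s : {s // s ∈ S} =>
        (⟨φ s.1, Finset.mem_image_of_mem φ s.2⟩ : {x // x ∈ S.image φ})) ⟨?_, ?_⟩ _ _ ?_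
      · intro s s' hss
        have := congrArg Subtype.val hss
        exact Subtype.ext (hinj' s.2 s'.2 this)
      · intro x
        exact ⟨⟨σ x, hσS x⟩, Subtype.ext (hσ x)⟩
      · intro s
        rw [hσφ s.1 s.2]
    rw [h2]
    exact Finset.sum_coe_sort S G

open scoped Classical in
/-- the two sums of fractional parts -/
lemma fract_add {r : ℕ} (f : Fin r → ℝ) (v : ℝ) :
    ∑ l, Int.fract (f l - v) + ∑ l, Int.fract (v - f l) = r - cl f v := by
  rw [← cl_eq', ← Finset.sum_add_distrib]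
  refine Finset.sum_congr rfl fun l _ => ?_
  have h1 : v - f l = -(f l - v) := by ring
  rw [h1]
  by_cases hf : Int.fract (f l - v) = 0
  · have hk : ∃ k : ℤ, f l = v + k := by
      obtain ⟨k, hk⟩ := Int.fract_eq_zero_iff.1 hf
      exact ⟨k, by linarith⟩
    rw [if_pos hk, hf, Int.fract_neg_eq_zero.2 hf]
    norm_num
  · have hk : ¬ ∃ k : ℤ, f l = v + k := by
      rintro ⟨k, hk⟩
      apply hf
      have : f l - v = k := by linarith
      rw [this, Int.fract_intCast]
    rw [if_neg hk, Int.fract_neg hf]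
    ring

lemma fract_shift (u v : ℝ) (h : ∃ m : ℤ, u = v + m) : Int.fract u = Int.fract v := by
  obtain ⟨m, rfl⟩ := h
  exact Int.fract_add_intCast v m

/-- **The general bound for the number of independent exponents at infinity.** -/
lemma indep_gen {r : ℕ} {L : AddSubgroup (ExponentIndex 2 r → ℤ)} {c : ExponentIndex 2 r → ℚ}
    (H : ∀ z, InCoset L c z → WeylBoth z) {x : ExponentIndex 2 r → ℚ}
    (hx : InCoset L c (fun i => (x i : ℝ))) (A : Finset (Fin r)) (hcon : ∀ m, ¬ RelIn L A m)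
    (S : Finset (ℚ × ℚ)) (hS : S.Nonempty)
    (hinj : ∀ s ∈ S, ∀ s' ∈ S, Int.fract (-(s.1 + s.2)) = Int.fract (-(s'.1 + s'.2)) → s = s') :
    (S.card : ℝ) * A.card ≤ S.card * r + r - ∑ s ∈ S,
      ((cl (fun l => (x (Sum.inl (0, l)) : ℝ)) s.1 : ℝ) + cl (fun l => (x (Sum.inl (1, l)) : ℝ)) s.2) := by
  classical
  obtain ⟨t, s, hlt, ht0, hs0, hts, hsum⟩ := cyclic S hS hinj
  set f : Fin r → ℝ := fun l => (x (Sum.inl (0, l)) : ℝ) with hf
  set g : Fin r → ℝ := fun l => (x (Sum.inl (1, l)) : ℝ) with hg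
  set F0 : ℚ × ℚ → ℝ := fun s => ∑ l, Int.fract (f l - s.1) with hF0
  set F1 : ℚ × ℚ → ℝ := fun s => ∑ l, Int.fract (g l - s.2) with hF1
  set F2 : ℚ × ℚ → ℝ := fun s => ∑ l, Int.fract (s.1 - f l) with hF2
  set F3 : ℚ × ℚ → ℝ := fun s => ∑ l, Int.fract (s.2 - g l) with hF3
  have key : ∀ k ∈ range S.card, (A.card : ℝ) ≤ r * ((t (k + 1) : ℝ) - t k - 1) + F0 (s k) + F1 (s k) +
      F2 (s (k + 1)) + F3 (s (k + 1)) := by
    intro k hk
    rw [mem_range] at hk
    have hk' := hlt k hk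
    obtain ⟨z, hz, hz1, hz2⟩ := exists_point hx A hcon (-((t k + t (k + 1)) / 2))
    have hW := H z hz
    unfold WeylBoth at hW
    let E : Fin 3 → Fin r → ℝ := ![fun l => z (Sum.inl (0, l)), fun l => z (Sum.inl (1, l)),
      fun l => -z (Sum.inr l)]
    have hE1 : Ineq E := by
      apply ineq_of_weyl
      have h2 := hW.1
      convert h2 using 1
      · funext j l
        fin_cases j <;> rfl
      · funext l
        simp [E]
    have hE2 : Ineq (fun i l => -E i l) := by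
      apply ineq_of_weyl
      have h2 := hW.2
      convert h2 using 1
      · funext j l
        fin_cases j <;> rfl
      · funext l
        simp [E]
    have e0 : E 0 = f := by
      funext l
      exact hz1 (0, l)
    have e1 : E 1 = g := by
      funext l
      exact hz1 (1, l)
    have hlt' : (t k : ℝ) < t (k + 1) := by exact_mod_cast hk'
    have h2 := arc' hE1 hE2 (s k).1 (-(t k : ℝ) - (s k).1) (t k) (s (k + 1)).1
      (-(t (k + 1) : ℝ) - (s (k + 1)).1) (t (k + 1)) (by ring) (by ring) hlt'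
    rw [e0, e1] at h2
    have h3 : A ⊆ univ.filter fun l => ∃ m : ℤ, (t k : ℝ) < E 2 l + m ∧ E 2 l + m < t (k + 1) := by
      intro l hl2
      rw [mem_filter]
      refine ⟨mem_univ _, 0, ?_⟩
      have h4 : E 2 l = ((t k : ℝ) + t (k + 1)) / 2 := by
        show -z (Sum.inr l) = _
        rw [hz2 l hl2]
        push_cast
        ring
      rw [h4]
      push_cast
      constructor <;> linarith
    have h4 : (A.card : ℝ) ≤ ((univ.filter fun l => ∃ m : ℤ, (t k : ℝ) < E 2 l + m ∧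
        E 2 l + m < t (k + 1)).card : ℝ) := by
      exact_mod_cast Finset.card_le_card h3
    have h5 : ∑ l, Int.fract (g l - (-(t k : ℝ) - (s k).1)) = F1 (s k) := by
      refine Finset.sum_congr rfl fun l _ => fract_shift _ _ ?_
      obtain ⟨m, hm⟩ := hts k
      refine ⟨m, ?_⟩
      rw [hm]
      push_cast
      ring
    have h6 : ∑ l, Int.fract (-(t (k + 1) : ℝ) - (s (k + 1)).1 - g l) = F3 (s (k + 1)) := by
      refine Finset.sum_congr rfl fun l _ => fract_shift _ _ ?_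
      obtain ⟨m, hm⟩ := hts (k + 1)
      refine ⟨-m, ?_⟩
      rw [hm]
      push_cast
      ring
    rw [h5, h6] at h2
    exact h4.trans h2
  have hall := Finset.sum_le_sum key
  have hshift : ∀ G : ℚ × ℚ → ℝ, ∑ k ∈ range S.card, G (s (k + 1)) = ∑ x ∈ S, G x := by
    intro G
    rw [← hsum G]
    have h1 := Finset.sum_range_succ (fun k => G (s k)) S.card
    have h2 := Finset.sum_range_succ' (fun k => G (s k)) S.card
    rw [hs0] at h1
    linarith
  simp only [Finset.sum_add_distrib, Finset.sum_const, card_range, nsmul_eq_mul, ← Finset.mul_sum,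
    hsum, hshift] at hall
  have htel : ∑ k ∈ range S.card, ((t (k + 1) : ℝ) - t k - 1) = 1 - S.card := by
    rw [Finset.sum_sub_distrib, Finset.sum_range_sub (fun k => (t k : ℝ)), Finset.sum_const, card_range,
      nsmul_eq_mul, mul_one, ht0]
    push_cast
    ring
  rw [htel] at hall
  have hF : ∑ s ∈ S, F0 s + ∑ s ∈ S, F2 s = S.card * r - ∑ s ∈ S, (cl f s.1 : ℝ) := by
    rw [← Finset.sum_add_distrib]
    have : ∀ s ∈ S, F0 s + F2 s = r - cl f s.1 := fun s _ => fract_add f s.1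
    rw [Finset.sum_congr rfl this, Finset.sum_sub_distrib, Finset.sum_const, nsmul_eq_mul]
  have hG : ∑ s ∈ S, F1 s + ∑ s ∈ S, F3 s = S.card * r - ∑ s ∈ S, (cl g s.2 : ℝ) := by
    rw [← Finset.sum_add_distrib]
    have : ∀ s ∈ S, F1 s + F3 s = r - cl g s.2 := fun s _ => fract_add g s.2
    rw [Finset.sum_congr rfl this, Finset.sum_sub_distrib, Finset.sum_const, nsmul_eq_mul]
  rw [Finset.sum_add_distrib]
  linarith

end Pool.Agent.L5helper23.RP
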