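import Pool.Agent.L5helper23.RP.Rel

set_option autoImplicit false

/-!
The conclusions for the systems with equidistributed exponents at the finite points.
-/

namespace Pool.Agent.L5helper23.RP

open Pool.Agent.W432.PC Pool.Agent.W432.TC Pool.Agent.Y227.SS Finset

open scoped Classical in
/-- The numbers `f l` are equidistributed modulo the integers in the multiples of `1 / p`: for every
`j`, the number of the `l` with `f l` congruent to `j / p` is `r / p`. -/
def Equi (p : ℕ) {r : ℕ} (f : Fin r → ℚ) : Prop :=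
  ∀ j : ℤ, p * (univ.filter fun l => ∃ k : ℤ, f l = j / p + k).card = r

lemma Equi.real {p r : ℕ} {f : Fin r → ℚ} (h : Equi p f) : EquiR p (fun l => (f l : ℝ)) := by
  classical
  intro j
  have h1 := h j
  have h2 : cl (fun l => (f l : ℝ)) (j / p) = (univ.filter fun l => ∃ k : ℤ, f l = j / p + k).card := by
    unfold cl
    congr 1
    ext l
    simp only [mem_filter, mem_univ, true_and]
    refine exists_congr fun k => ?_
    constructor
    · intro h
      have h3 : ((f l : ℚ) : ℝ) = ((j / p + k : ℚ) : ℝ) := by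
        rw [h]
        push_cast
        ring
      exact_mod_cast h3
    · intro h
      rw [h]
      push_cast
      ring
  rw [h2]
  convert h1

lemma Equi.dvd {p r : ℕ} {f : Fin r → ℚ} (h : Equi p f) : p ∣ r := ⟨_, (h 0).symm⟩

lemma Equi.mem {p r : ℕ} (hp : 0 < p) {f : Fin r → ℚ} (h : Equi p f) (l : Fin r) :
    ∃ m : ℤ, (r : ℚ) * f l = m := by
  obtain ⟨m, hm⟩ := equiR_mem hp h.real l
  obtain ⟨s, hs⟩ := h.dvd
  refine ⟨s * m, ?_⟩
  have h1 : (p : ℚ) * f l = m := by exact_mod_cast hm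
  have h2 : (r : ℚ) = p * s := by exact_mod_cast hs
  rw [h2]
  push_cast
  rw [← h1]
  ring

open scoped Classical in
/-- The bound `r (1 - 1 / p - 1 / q + s / lcm (p, q))`. -/
noncomputable def bd (r p q : ℕ) (s : ℤ) : ℝ :=
  (r : ℝ) * (1 - 1 / p - 1 / q + s / (Nat.lcm p q : ℕ))

/-- the numbers `e * f l` in the arc between `j / D` and `k / D`, where `D = lcm (p, q)`, modulo the
integers -/
def InArc (p q : ℕ) (j k : ℤ) (y : ℝ) : Prop :=
  ∃ m : ℤ, (j : ℝ) / (Nat.lcm p q : ℕ) < y + m ∧ y + m < (k : ℝ) / (Nat.lcm p q : ℕ)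

open scoped Classical in
lemma arc_mult {r M p q : ℕ} {lam : Fin 3 → Fin r → ℚ} (h : AllIneq M lam) (hp : 0 < p) (hq : 0 < q)
    (hpM : p ∣ M) (hqM : q ∣ M) (h0 : Equi p (lam 0)) (h1 : Equi q (lam 1)) (e : ℤ)
    (he : IsCoprime e (M : ℤ)) (j k : ℤ) (hjk : j < k) :
    ((univ.filter fun l => InArc p q j k ((e : ℝ) * lam 2 l)).card : ℝ) ≤ bd r p q (k - j) := by
  obtain ⟨i1, i2⟩ := h e he
  have hep : IsCoprime e (p : ℤ) := by
    obtain ⟨s, hs⟩ := hpM
    rw [hs] at he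
    push_cast at he
    exact he.of_mul_right_left
  have heq : IsCoprime e (q : ℤ) := by
    obtain ⟨s, hs⟩ := hqM
    rw [hs] at he
    push_cast at he
    exact he.of_mul_right_left
  have h2 := arc i1 i2 hp hq (h0.real.mul hp hep) (h1.real.mul hq heq) j k hjk
  unfold bd InArc
  push_cast
  exact h2

open scoped Classical in
/-- multiplicities modulo the numbers with denominators prime to `M` -/
lemma mult_bd {r M p q : ℕ} {lam : Fin 3 → Fin r → ℚ} (h : AllIneq M lam) (hp : 0 < p) (hq : 0 < q)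
    (hpM : p ∣ M) (hqM : q ∣ M) (h0 : Equi p (lam 0)) (h1 : Equi q (lam 1)) (l : Fin r) :
    (mult M (lam 2) (lam 2 l) : ℝ) ≤ bd r p q 2 ∧
      (¬ PrimeDen M (Nat.lcm p q * lam 2 l) → (mult M (lam 2) (lam 2 l) : ℝ) ≤ bd r p q 1) := by
  have hl : 0 < Nat.lcm p q := Nat.lcm_pos hp hq
  have hl' : (0 : ℝ) < (Nat.lcm p q : ℕ) := by exact_mod_cast hl
  obtain ⟨e, he, hint⟩ := exists_mult (M := M) lam
  have key : ∀ j k : ℤ, j < k → InArc p q j k ((e : ℝ) * lam 2 l) →
      (mult M (lam 2) (lam 2 l) : ℝ) ≤ bd r p q (k - j) := by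
    intro j k hjk hin
    refine le_trans ?_ (arc_mult h hp hq hpM hqM h0 h1 e he j k hjk)
    unfold mult
    have h2 : (univ.filter fun l' => PrimeDen M (lam 2 l' - lam 2 l)) ⊆
        univ.filter fun l => InArc p q j k ((e : ℝ) * lam 2 l) := by
      intro l' hl2
      rw [mem_filter] at hl2 ⊢
      refine ⟨mem_univ _, ?_⟩
      obtain ⟨s, hs⟩ := hint 2 l' l hl2.2
      obtain ⟨m, hm⟩ := hin
      refine ⟨m - s, ?_⟩
      rw [hs]
      push_cast
      constructor <;> linarith [hm.1, hm.2]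
    exact_mod_cast Finset.card_le_card h2
  set y : ℝ := (Nat.lcm p q : ℕ) * ((e : ℝ) * lam 2 l) with hy
  have hy' : (e : ℝ) * lam 2 l = y / (Nat.lcm p q : ℕ) := by
    rw [hy]
    field_simp
  constructor
  · have h2 := key (⌈y⌉ - 1) (⌈y⌉ + 1) (by omega) ⟨0, by
      push_cast
      rw [hy', add_zero]
      constructor
      · apply div_lt_div_of_pos_right _ hl'
        linarith [Int.ceil_lt_add_one y]
      · apply div_lt_div_of_pos_right _ hl'
        linarith [Int.le_ceil y]⟩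
    have h3 : (⌈y⌉ + 1 - (⌈y⌉ - 1) : ℤ) = 2 := by ring
    rwa [h3] at h2
  · intro hnot
    have hny : (⌊y⌋ : ℝ) ≠ y := by
      intro h2
      apply hnot
      refine primeDen_of_mul he ⟨⌊y⌋, ?_⟩
      rw [h2, hy]
      push_cast
      ring
    have h2 := key ⌊y⌋ (⌊y⌋ + 1) (by omega) ⟨0, by
      push_cast
      rw [hy', add_zero]
      constructor
      · apply div_lt_div_of_pos_right _ hl'
        exact lt_of_le_of_ne (Int.floor_le y) hny
      · apply div_lt_div_of_pos_right _ hl'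
        exact Int.lt_floor_add_one y⟩
    have h3 : (⌊y⌋ + 1 - ⌊y⌋ : ℤ) = 1 := by ring
    rwa [h3] at h2

/-- the relations as integral relations between the exponents at infinity -/
lemma integral_relation {r M₁ : ℕ} {L : AddSubgroup (ExponentIndex 2 r → ℤ)} {c x : ExponentIndex 2 r → ℚ}
    (hx : InCoset L c (fun i => (x i : ℝ))) (hM : ∀ i, ∃ k : ℤ, (M₁ : ℚ) * c i = k)
    (h0 : ∀ p, ∃ m : ℤ, (r : ℚ) * x (Sum.inl p) = m) {m : ExponentIndex 2 r → ℤ} (hm : m ∈ L) :
    ∃ z : ℤ, ∑ l, ((M₁ * r * m (Sum.inr l) : ℤ) : ℚ) * x (Sum.inr l) = z := by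
  rw [inCoset_rat] at hx
  obtain ⟨z, hz⟩ := hx m hm
  choose k hk using hM
  choose s hs using h0
  refine ⟨M₁ * r * z + r * (∑ i, m i * k i) - M₁ * ∑ p, m (Sum.inl p) * s p, ?_⟩
  push_cast
  rw [← hz]
  simp only [mul_sub, Finset.sum_sub_distrib, ← hk, ← hs]
  have e1 : ∑ i, (m i : ℚ) * x i = ∑ p, (m (Sum.inl p) : ℚ) * x (Sum.inl p) +
      ∑ l, (m (Sum.inr l) : ℚ) * x (Sum.inr l) := Fintype.sum_sum_type _
  rw [e1]
  have e2 : (r : ℚ) * ∑ i, (m i : ℚ) * (M₁ * c i) = M₁ * r * ∑ i, (m i : ℚ) * c i := by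
    rw [Finset.mul_sum, Finset.mul_sum]
    exact Finset.sum_congr rfl fun i _ => by ring
  have e3 : (M₁ : ℚ) * ∑ p, (m (Sum.inl p) : ℚ) * (r * x (Sum.inl p)) =
      M₁ * r * ∑ p, (m (Sum.inl p) : ℚ) * x (Sum.inl p) := by
    rw [Finset.mul_sum, Finset.mul_sum]
    exact Finset.sum_congr rfl fun i _ => by ring
  have e4 : ∑ l, (M₁ : ℚ) * r * m (Sum.inr l) * x (Sum.inr l) =
      M₁ * r * ∑ l, (m (Sum.inr l) : ℚ) * x (Sum.inr l) := by
    rw [Finset.mul_sum]
    exact Finset.sum_congr rfl fun i _ => by ring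
  rw [e2, e3, e4]
  ring

end Pool.Agent.L5helper23.RP
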