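import Pool.Agent.L5helper23.RP.Ineq

set_option autoImplicit false

/-!
The exponents modulo the rational numbers with denominators prime to `M`.
-/

namespace Pool.Agent.L5helper23.RP

open Pool.Agent.W432.PC Pool.Agent.W432.TC Pool.Agent.Y227.SS Finset

universe u

/-- the denominator of `q` is prime to `M` -/
def PrimeDen (M : ℕ) (q : ℚ) : Prop := q.den.Coprime M

lemma primeDen_of_mul {M : ℕ} {q : ℚ} {e : ℤ} (he : IsCoprime e (M : ℤ)) (h : ∃ k : ℤ, (e : ℝ) * q = k) :
    PrimeDen M q := by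
  obtain ⟨k, hk⟩ := h
  have hk' : (e : ℚ) * q = k := by exact_mod_cast hk
  have h1 : (e : ℚ) * q.num = k * q.den := by
    rw [← hk', mul_assoc, Rat.mul_den_eq_num]
  have h2 : e * q.num = k * q.den := by exact_mod_cast h1
  have h3 : (q.den : ℤ) ∣ e := by
    have h4 : (q.den : ℤ) ∣ e * q.num := ⟨k, by rw [h2]; ring⟩
    have h5 : IsCoprime (q.den : ℤ) q.num := by
      rw [Int.isCoprime_iff_gcd_eq_one, Int.gcd_comm]
      exact q.reduced
    exact h5.dvd_of_dvd_mul_right h4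
  have h6 : IsCoprime (q.den : ℤ) (M : ℤ) := by
    obtain ⟨s, hs⟩ := h3
    rw [hs] at he
    exact he.of_mul_left_left
  exact Nat.isCoprime_iff_coprime.1 h6

lemma PrimeDen.add {M : ℕ} {p q : ℚ} (hp : PrimeDen M p) (hq : PrimeDen M q) : PrimeDen M (p + q) :=
  Nat.Coprime.coprime_dvd_left (Rat.add_den_dvd p q) (Nat.Coprime.mul_left hp hq)

/-- a multiplier -/
lemma exists_mult {M r : ℕ} (lam : Fin 3 → Fin r → ℚ) : ∃ e : ℤ, IsCoprime e (M : ℤ) ∧
    ∀ i l l', PrimeDen M (lam i l - lam i l') → ∃ k : ℤ, (e : ℝ) * lam i l = (e : ℝ) * lam i l' + k := by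
  classical
  let d : Fin 3 × Fin r × Fin r → ℕ := fun t =>
    if PrimeDen M (lam t.1 t.2.1 - lam t.1 t.2.2) then (lam t.1 t.2.1 - lam t.1 t.2.2).den else 1
  have hd : ∀ t, (d t).Coprime M := by
    intro t
    simp only [d]
    split_ifs with h
    · exact h
    · exact Nat.coprime_one_left M
  refine ⟨((∏ t, d t : ℕ) : ℤ), Nat.isCoprime_iff_coprime.2 (Nat.Coprime.prod_left fun t _ => hd t), ?_⟩
  intro i l l' h
  have h1 : d (i, l, l') ∣ ∏ t, d t := Finset.dvd_prod_of_mem d (Finset.mem_univ _)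
  have h2 : d (i, l, l') = (lam i l - lam i l').den := if_pos h
  rw [h2] at h1
  obtain ⟨s, hs⟩ := h1
  refine ⟨s * (lam i l - lam i l').num, ?_⟩
  have h3 : ((lam i l - lam i l').den : ℚ) * (lam i l - lam i l') = (lam i l - lam i l').num :=
    Rat.den_mul_eq_num _
  have h4 : ((lam i l - lam i l').den : ℝ) * ((lam i l : ℝ) - lam i l') = (lam i l - lam i l').num := by
    have := congrArg (fun q : ℚ => (q : ℝ)) h3
    push_cast at this
    exact this
  rw [hs]
  push_cast
  linear_combination (s : ℝ) * h4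

open scoped Classical in
/-- the number of the exponents at the point `i` congruent to `a` modulo the numbers with denominators prime to
`M` -/
noncomputable def mult {r : ℕ} (M : ℕ) (f : Fin r → ℚ) (a : ℚ) : ℕ :=
  (univ.filter fun l => PrimeDen M (f l - a)).card

lemma mult_le_cl {r M : ℕ} (lam : Fin 3 → Fin r → ℚ) {e : ℤ}
    (he : ∀ i l l', PrimeDen M (lam i l - lam i l') → ∃ k : ℤ, (e : ℝ) * lam i l = (e : ℝ) * lam i l' + k)
    (i : Fin 3) (k : Fin r) : mult M (lam i) (lam i k) ≤ cl (fun l => (e : ℝ) * lam i l) ((e : ℝ) * lam i k) := by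
  classical
  unfold mult cl
  refine Finset.card_le_card fun l hl => ?_
  rw [mem_filter] at hl ⊢
  exact ⟨hl.1, he i l k hl.2⟩

lemma cl_le_mult {r M : ℕ} (f : Fin r → ℚ) {e : ℤ} (he : IsCoprime e (M : ℤ)) (a : ℚ) :
    cl (fun l => (e : ℝ) * f l) ((e : ℝ) * a) ≤ mult M f a := by
  classical
  unfold mult cl
  refine Finset.card_le_card fun l hl => ?_
  rw [mem_filter] at hl ⊢
  refine ⟨hl.1, primeDen_of_mul he ?_⟩
  obtain ⟨k, hk⟩ := hl.2
  refine ⟨k, ?_⟩
  push_cast
  linear_combination hk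

variable {r M : ℕ} {lam : Fin 3 → Fin r → ℚ}

/-- the hypothesis: the inequalities for all multiples prime to `M` -/
def AllIneq (M : ℕ) {r : ℕ} (lam : Fin 3 → Fin r → ℚ) : Prop :=
  ∀ e : ℤ, IsCoprime e (M : ℤ) → Ineq (fun i l => (e : ℝ) * lam i l) ∧ Ineq (fun i l => -((e : ℝ) * lam i l))

lemma part2 (h : AllIneq M lam) {x y z : Fin 3} (hxy : x ≠ y) (hyz : y ≠ z) (hxz : x ≠ z) (k l : Fin r) :
    mult M (lam y) (lam y k) + mult M (lam z) (lam z l) ≤ r + mult M (lam x) (-lam y k - lam z l) := by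
  obtain ⟨e, he, hint⟩ := exists_mult (M := M) lam
  obtain ⟨h1, h2⟩ := h e he
  have h3 := mult_ineq h1 h2 hxy hyz hxz ((e : ℝ) * lam y k) ((e : ℝ) * lam z l)
  have h4 := mult_le_cl lam hint y k
  have h5 := mult_le_cl lam hint z l
  have h6 := cl_le_mult (lam x) he (-lam y k - lam z l)
  have h7 : (e : ℝ) * ((-lam y k - lam z l : ℚ) : ℝ) = -((e : ℝ) * lam y k) - (e : ℝ) * lam z l := by
    push_cast
    ring
  rw [h7] at h6
  omega

lemma part3 (h : AllIneq M lam) {x y z : Fin 3} (hxy : x ≠ y) (hyz : y ≠ z) (hxz : x ≠ z)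
    (hz : ∀ l l', PrimeDen M (lam z l - lam z l')) :
    ∃ σ : Equiv.Perm (Fin r), ∀ l k, PrimeDen M (lam x l + lam y (σ l) + lam z k) := by
  classical
  rcases Nat.eq_zero_or_pos r with rfl | hr
  · exact ⟨1, fun l => l.elim0⟩
  obtain ⟨e, he, hint⟩ := exists_mult (M := M) lam
  obtain ⟨h1, h2⟩ := h e he
  let l₀ : Fin r := ⟨0, hr⟩
  have hcl : cl (fun l => (e : ℝ) * lam z l) ((e : ℝ) * lam z l₀) = r := by
    unfold cl
    rw [Finset.filter_true_of_mem fun l _ => hint z l l₀ (hz l l₀), Finset.card_univ, Fintype.card_fin]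
  obtain ⟨σ, hσ⟩ := matching (X := fun l => (e : ℝ) * lam x l) (Y := fun l => (e : ℝ) * lam y l)
    (c := (e : ℝ) * lam z l₀) (fun a => by
      have h3 := mult_ineq h1 h2 hxy.symm hxz hyz a ((e : ℝ) * lam z l₀)
      rw [hcl] at h3
      omega)
  refine ⟨σ, fun l k => ?_⟩
  have h4 : PrimeDen M (lam x l + lam y (σ l) + lam z l₀) := by
    refine primeDen_of_mul he ?_
    obtain ⟨m, hm⟩ := hσ l
    refine ⟨m, ?_⟩
    rw [← hm]
    push_cast
    ring
  have h5 := h4.add (hz k l₀)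
  have h6 : lam x l + lam y (σ l) + lam z l₀ + (lam z k - lam z l₀) = lam x l + lam y (σ l) + lam z k := by
    ring
  rwa [h6] at h5

lemma den_half {q : ℚ} (h : ∃ m : ℤ, 2 * q = m) (h1 : q.den ≠ 1) : ∃ m : ℤ, q = m + 1 / 2 := by
  obtain ⟨m, hm⟩ := h
  rcases Int.even_or_odd' m with ⟨t, rfl | rfl⟩
  · exfalso
    apply h1
    have : q = t := by
      push_cast at hm
      linarith
    rw [this]
    exact Rat.den_intCast t
  · refine ⟨t, ?_⟩
    push_cast at hm
    linarith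

lemma den_one {q : ℚ} (h : q.den = 1) : ∃ m : ℤ, q = m := ⟨q.num, ((Rat.den_eq_one_iff q).1 h).symm⟩

/-- an integer, one half and a third of an integer have no sum with odd denominator -/
lemma not_primeDen {M : ℕ} (hM : 2 ∣ M) {q : ℚ} {m : ℤ} (h : 3 * q = m + 3 / 2) : ¬ PrimeDen M q := by
  intro hp
  have h2 : q.den.Coprime 2 := Nat.Coprime.coprime_dvd_right hM hp
  have h3 : ((q.den : ℕ) : ℚ) * q = q.num := Rat.den_mul_eq_num q
  have h4 : (6 : ℚ) * q.num = q.den * (2 * m + 3) := by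
    rw [← h3]
    linear_combination (2 * (q.den : ℚ)) * h
  have h5 : (6 : ℤ) * q.num = q.den * (2 * m + 3) := by exact_mod_cast h4
  have h6 : (2 : ℤ) ∣ q.den * (2 * m + 3) := ⟨3 * q.num, by rw [← h5]; ring⟩
  have h7 : IsCoprime (2 : ℤ) (q.den : ℤ) := by
    have := Nat.isCoprime_iff_coprime.2 h2
    exact_mod_cast this.symm
  have h8 := h7.dvd_of_dvd_mul_left h6
  omega

lemma part4 (h : AllIneq M lam) (hM : 2 ∣ M) (h0 : ∀ l, ∃ m : ℤ, 3 * lam 0 l = m)
    (h1 : ∀ l, ∃ m : ℤ, 2 * lam 1 l = m)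
    (hr : 2 * (univ.filter fun l => (lam 1 l).den = 1).card = r) (l : Fin r) :
    2 * mult M (lam 2) (lam 2 l) ≤ r := by
  classical
  set s := univ.filter fun l => (lam 1 l).den = 1 with hs
  have hcompl : 2 * (univ.filter fun l => ¬ (lam 1 l).den = 1).card = r := by
    have := Finset.card_filter_add_card_filter_not (s := (univ : Finset (Fin r))) (fun l => (lam 1 l).den = 1)
    rw [Finset.card_univ, Fintype.card_fin, ← hs] at this
    omega
  have hpos : 0 < r := l.pos
  have hne1 : s.Nonempty := by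
    rw [← Finset.card_pos]
    omega
  have hne2 : (univ.filter fun l => ¬ (lam 1 l).den = 1).Nonempty := by
    rw [← Finset.card_pos]
    omega
  obtain ⟨k1, hk1⟩ := hne1
  obtain ⟨k2, hk2⟩ := hne2
  rw [hs, mem_filter] at hk1
  rw [mem_filter] at hk2
  obtain ⟨m1, hm1⟩ := den_one hk1.2
  obtain ⟨m2, hm2⟩ := den_half (h1 k2) hk2.2
  -- the classes at the point one
  have c1 : s.card ≤ mult M (lam 1) (lam 1 k1) := by
    unfold mult
    refine Finset.card_le_card fun j hj => ?_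
    rw [hs, mem_filter] at hj
    rw [mem_filter]
    refine ⟨mem_univ _, ?_⟩
    obtain ⟨m, hm⟩ := den_one hj.2
    rw [hm, hm1]
    have : ((m : ℚ) - m1) = ((m - m1 : ℤ) : ℚ) := by push_cast; ring
    rw [this]
    unfold PrimeDen
    rw [Rat.den_intCast]
    exact Nat.coprime_one_left M
  have c2 : (univ.filter fun l => ¬ (lam 1 l).den = 1).card ≤ mult M (lam 1) (lam 1 k2) := by
    unfold mult
    refine Finset.card_le_card fun j hj => ?_
    rw [mem_filter] at hj
    rw [mem_filter]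
    refine ⟨mem_univ _, ?_⟩
    obtain ⟨m, hm⟩ := den_half (h1 j) hj.2
    rw [hm, hm2]
    have : ((m : ℚ) + 1 / 2 - (m2 + 1 / 2)) = ((m - m2 : ℤ) : ℚ) := by push_cast; ring
    rw [this]
    unfold PrimeDen
    rw [Rat.den_intCast]
    exact Nat.coprime_one_left M
  have i1 := part2 h (x := 0) (y := 1) (z := 2) (by decide) (by decide) (by decide) k1 l
  have i2 := part2 h (x := 0) (y := 1) (z := 2) (by decide) (by decide) (by decide) k2 l
  have hor : mult M (lam 0) (-lam 1 k1 - lam 2 l) = 0 ∨ mult M (lam 0) (-lam 1 k2 - lam 2 l) = 0 := by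
    by_contra hcon
    push Not at hcon
    obtain ⟨n1, n2⟩ := hcon
    unfold mult at n1 n2
    rw [Finset.card_ne_zero] at n1 n2
    obtain ⟨j1, hj1⟩ := n1
    obtain ⟨j2, hj2⟩ := n2
    rw [mem_filter] at hj1 hj2
    have p1 := hj1.2
    have p2 : PrimeDen M (-(lam 0 j2 - (-lam 1 k2 - lam 2 l))) := by
      unfold PrimeDen
      rw [Rat.den_neg_eq_den]
      exact hj2.2
    have p3 := p1.add p2
    obtain ⟨a1, ha1⟩ := h0 j1
    obtain ⟨a2, ha2⟩ := h0 j2
    refine not_primeDen hM (m := a1 - a2 + 3 * m1 - 3 * m2 - 3) ?_ p3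
    rw [hm1, hm2]
    push_cast
    linear_combination ha1 - ha2
  rcases hor with h3 | h3
  · rw [h3] at i1
    omega
  · rw [h3] at i2
    omega

end Pool.Agent.L5helper23.RP
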