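import Pool.Agent.L5helper23.RP.Thrice
import Pool.Agent.Y227.TP.Main

set_option autoImplicit false

/-!
The final theorem.
-/

namespace Pool.Agent.L5helper23.RP

open Pool.Agent.W432.PC Pool.Agent.W432.TC Pool.Agent.W432.HK Pool.Agent.Y227.SS
open Pool.Agent.Y227.TP (Few BadPt DiagExps)

universe u

lemma exists_den {I : Type*} [Fintype I] (𝒟 : Finset (AddSubgroup (I → ℤ) × (I → ℚ))) :
    ∃ M : ℕ, 0 < M ∧ ∀ C ∈ 𝒟, ∀ i, ∃ k : ℤ, (M : ℚ) * C.2 i = k := by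
  classical
  refine ⟨∏ C ∈ 𝒟, ∏ i, (C.2 i).den, Finset.prod_pos fun C _ => Finset.prod_pos fun i _ =>
    (C.2 i).den_pos, fun C hC i => ?_⟩
  have h1 : (C.2 i).den ∣ ∏ C ∈ 𝒟, ∏ i, (C.2 i).den :=
    (Finset.dvd_prod_of_mem (fun i => (C.2 i).den) (Finset.mem_univ i)).trans
      (Finset.dvd_prod_of_mem (fun C : AddSubgroup (I → ℤ) × (I → ℚ) => ∏ i, (C.2 i).den) hC)
  obtain ⟨k, hk⟩ := h1
  refine ⟨k * (C.2 i).num, ?_⟩
  rw [hk]
  push_cast
  have h2 := Rat.den_mul_eq_num (C.2 i)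
  calc ((C.2 i).den : ℚ) * k * C.2 i = k * ((C.2 i).den * C.2 i) := by ring
    _ = _ := by rw [h2]

theorem final (r : ℕ) :
    ∃ (ε : ℝ) (M B : ℕ), 0 < ε ∧ 0 < M ∧
      ∀ (R : Type u) [CommRing R] [IsDomain R] [CharZero R] [Algebra.FiniteType ℤ R]
        [Algebra.IsAlgebraic ℤ R] (b c : Matrix (Fin r) (Fin r) R),
        Few (BadPt ![0, 1] ![b, c]) ε →
        ∃ lam : Fin 3 → Fin r → ℚ, DiagExps b (lam 0) ∧ DiagExps c (lam 1) ∧
          DiagExps (b + c) (fun l => -lam 2 l) ∧ General M lam ∧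
          ∀ p q : ℕ, 0 < p → 0 < q → Equi p (lam 0) → Equi q (lam 1) → Special M B p q lam := by
  obtain ⟨ε₁, 𝒟, hε₁, h𝒟, h⟩ := Pool.Agent.Y227.TP.density_sys.{u} 2 r
  obtain ⟨ε₂, M₀, hε₂, hM₀, h'⟩ := multiples.{u} 2 r
  obtain ⟨M₁, hM₁, hM₁'⟩ := exists_den 𝒟
  obtain ⟨B, hB⟩ := exists_bound_rel 𝒟
  refine ⟨min ε₁ (ε₂ / 2), M₀ * r.factorial, M₁ * r * B, lt_min hε₁ (half_pos hε₂),
    Nat.mul_pos hM₀ r.factorial_pos, ?_⟩
  intro R _ _ _ _ _ b c hfew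
  have hα : ∀ i j : Fin 2, i ≠ j → IsUnit ((![0, 1] : Fin 2 → R) i - ![0, 1] j) := by
    intro i j hij
    fin_cases i <;> fin_cases j
    · exact absurd rfl hij
    · simp
    · simp
    · exact absurd rfl hij
  have hsum : ∑ j, (![b, c] : Fin 2 → Matrix (Fin r) (Fin r) R) j = b + c := by simp
  obtain ⟨-, h2⟩ := h R ![0, 1] ![b, c] hα
  obtain ⟨lam, phi, h3, h4, -, C, hC, hCx⟩ := h2 (hfew.mono (min_le_left _ _))
  rw [hsum] at h4
  have hx : (Sum.elim (fun p : Fin 2 × Fin r => (![lam 0, lam 1, fun l => -phi l] : Fin 3 → Fin r → ℚ)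
      p.1.castSucc p.2) (fun l => -(![lam 0, lam 1, fun l => -phi l] : Fin 3 → Fin r → ℚ) 2 l) :
        ExponentIndex 2 r → ℚ) = Sum.elim (fun p => lam p.1 p.2) phi := by
    funext i
    rcases i with ⟨j, l⟩ | l
    · fin_cases j <;> rfl
    · simp
  have hnice : ∀ e : ℤ, IsCoprime e (M₀ : ℤ) → Nice (fun i => (e : ℝ) *
      ((Sum.elim (fun p : Fin 2 × Fin r => (![lam 0, lam 1, fun l => -phi l] : Fin 3 → Fin r → ℚ)
        p.1.castSucc p.2) (fun l => -(![lam 0, lam 1, fun l => -phi l] : Fin 3 → Fin r → ℚ) 2 l) :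
          ExponentIndex 2 r → ℚ) i : ℝ)) := by
    rw [hx]
    obtain ⟨N, hN, hNlam, hNphi⟩ := Pool.Agent.Y227.TP.exists_commonDen lam phi
    rcases h' R ![0, 1] ![b, c] lam phi N hα (fun j => (h3 j).1) (by rw [hsum]; exact h4.1)
      hN hNlam hNphi with h5 | ⟨h5, -⟩
    · exact h5
    · exact absurd (hfew.mono (min_le_right _ _)) (Pool.Agent.Y227.TP.BadClasses.not_few hN hε₂ h5)
  refine ⟨![lam 0, lam 1, fun l => -phi l], h3 0, h3 1, ?_, general_of_nice _ hnice, ?_⟩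
  · have : (fun l => -(![lam 0, lam 1, fun l => -phi l] : Fin 3 → Fin r → ℚ) 2 l) = phi := by
      funext l
      simp
    rw [this]
    exact h4
  · intro p q hp hq h0 h1
    refine special_of_nice hM₁ hnice (L := C.1) (c := C.2) ?_ (fun z hz => (h𝒟 C hC z hz).1)
      (hM₁' C hC) (hB C hC) hp hq h0 h1
    rw [hx]
    exact hCx

end Pool.Agent.L5helper23.RP
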