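import Pool.Agent.L5helper23.RP.Final
import Pool.Agent.L5helper23.RP.Cls

set_option autoImplicit false

/-!
The final theorem with all relations.
-/

namespace Pool.Agent.L5helper23.RP

open Pool.Agent.W432.PC Pool.Agent.W432.TC Pool.Agent.W432.HK Pool.Agent.Y227.SS
open Pool.Agent.Y227.TP (Few BadPt DiagExps)

universe u

theorem final' (r : ℕ) :
    ∃ (ε : ℝ) (M B : ℕ), 0 < ε ∧ 0 < M ∧
      ∀ (R : Type u) [CommRing R] [IsDomain R] [CharZero R] [Algebra.FiniteType ℤ R]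
        [Algebra.IsAlgebraic ℤ R] (b c : Matrix (Fin r) (Fin r) R),
        Few (BadPt ![0, 1] ![b, c]) ε →
        ∃ lam : Fin 3 → Fin r → ℚ, DiagExps b (lam 0) ∧ DiagExps c (lam 1) ∧
          DiagExps (b + c) (fun l => -lam 2 l) ∧ General M lam ∧ Relations B lam ∧
          ∀ p q : ℕ, 0 < p → 0 < q → Equi p (lam 0) → Equi q (lam 1) →
            Special M (B * r) p q lam := by
  obtain ⟨ε₁, 𝒟, hε₁, h𝒟, h⟩ := Pool.Agent.Y227.TP.density_sys.{u} 2 r
  obtain ⟨ε₂, M₀, hε₂, hM₀, h'⟩ := multiples.{u} 2 r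
  obtain ⟨M₁, hM₁, hM₁'⟩ := exists_den 𝒟
  obtain ⟨B, hB⟩ := exists_bound_rel 𝒟
  refine ⟨min ε₁ (ε₂ / 2), M₀ * r.factorial, M₁ * B, lt_min hε₁ (half_pos hε₂),
    Nat.mul_pos hM₀ r.factorial_pos, ?_⟩
  intro R _ _ _ _ _ b c hfew
  have hα : ∀ i j : Fin 2, i ≠ j → IsUnit ((![0, 1] : Fin 2 → R) i - ![0, 1] j) := by
    intro i j hij
    fin_cases i <;> fin_cases j
    · exact absurd rfl hij
    · simp
    · simp
    · exact absurd rfl hij
  have hsum : ∑ j, (![b, c] : Fin 2 → Matrix (Fin r) (Fin r) R) j = b + c := by simp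
  obtain ⟨-, h2⟩ := h R ![0, 1] ![b, c] hα
  obtain ⟨lam, phi, h3, h4, -, C, hC, hCx⟩ := h2 (hfew.mono (min_le_left _ _))
  rw [hsum] at h4
  have hx : (Sum.elim (fun p : Fin 2 × Fin r => (![lam 0, lam 1, fun l => -phi l] : Fin 3 → Fin r → ℚ)
      p.1.castSucc p.2) (fun l => -(![lam 0, lam 1, fun l => -phi l] : Fin 3 → Fin r → ℚ) 2 l) :
        ExponentIndex 2 r → ℚ) = Sum.elim (fun p => lam p.1 p.2) phi := by
    funext i
    rcases i with ⟨j, l⟩ | l
    · fin_cases j <;> rfl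
    · simp
  have hnice : ∀ e : ℤ, IsCoprime e (M₀ : ℤ) → Nice (fun i => (e : ℝ) *
      ((Sum.elim (fun p : Fin 2 × Fin r => (![lam 0, lam 1, fun l => -phi l] : Fin 3 → Fin r → ℚ)
        p.1.castSucc p.2) (fun l => -(![lam 0, lam 1, fun l => -phi l] : Fin 3 → Fin r → ℚ) 2 l) :
          ExponentIndex 2 r → ℚ) i : ℝ)) := by
    rw [hx]
    obtain ⟨N, hN, hNlam, hNphi⟩ := Pool.Agent.Y227.TP.exists_commonDen lam phi
    rcases h' R ![0, 1] ![b, c] lam phi N hα (fun j => (h3 j).1) (by rw [hsum]; exact h4.1)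
      hN hNlam hNphi with h5 | ⟨h5, -⟩
    · exact h5
    · exact absurd (hfew.mono (min_le_right _ _)) (Pool.Agent.Y227.TP.BadClasses.not_few hN hε₂ h5)
  refine ⟨![lam 0, lam 1, fun l => -phi l], h3 0, h3 1, ?_, general_of_nice _ hnice, ?_, ?_⟩
  · have : (fun l => -(![lam 0, lam 1, fun l => -phi l] : Fin 3 → Fin r → ℚ) 2 l) = phi := by
      funext l
      simp
    rw [this]
    exact h4
  · refine relations hM₁ (L := C.1) (c := C.2) ?_ (fun z hz => (h𝒟 C hC z hz).1)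
      (hM₁' C hC) (hB C hC)
    rw [hx]
    exact hCx
  · intro p q hp hq h0 h1
    rw [show M₁ * B * r = M₁ * r * B by ring]
    refine special_of_nice hM₁ hnice (L := C.1) (c := C.2) ?_ (fun z hz => (h𝒟 C hC z hz).1)
      (hM₁' C hC) (hB C hC) hp hq h0 h1
    rw [hx]
    exact hCx

end Pool.Agent.L5helper23.RP
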