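import Pool.Agent.L5helper23.RP.Mult

set_option autoImplicit false

/-!
Inequalities for the multiplicities of the exponents modulo the integers, from the inequalities for line bundles.
-/

namespace Pool.Agent.L5helper23.RP

open Pool.Agent.W432.PC Pool.Agent.W432.TC Pool.Agent.Y227.SS Finset

/-- the inequalities for line bundles at three points, in symmetric form -/
def Ineq {r : ℕ} (E : Fin 3 → Fin r → ℝ) : Prop :=
  ∀ v : Fin 3 → ℝ, 0 < ∑ i, v i → (r : ℝ) ≤ ∑ i, ∑ l, nextGe (v i) (E i l)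

lemma nextGt_neg (v y : ℝ) : nextGt (-v) (-y) = 1 - nextGe v y := by
  unfold nextGt nextGe
  have h : -v - -y = -(v - y) := by ring
  rw [h, Int.floor_neg]
  push_cast
  ring

lemma ineq_of_weyl {r : ℕ} {E : Fin 3 → Fin r → ℝ}
    (h : Weyl (fun (j : Fin 2) l => E j.castSucc l) (fun l => -E 2 l)) : Ineq E := by
  intro v hv
  rw [Fin.sum_univ_three] at hv ⊢
  have h1 := h (fun j => v j.castSucc) (-v 2) (by
    rw [Fin.sum_univ_two]
    simp only [Fin.castSucc_zero, Fin.castSucc_one]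
    linarith)
  rw [Fin.sum_univ_two] at h1
  simp only [Fin.castSucc_zero, Fin.castSucc_one, nextGt_neg, Finset.sum_sub_distrib,
    Finset.sum_const, Finset.card_univ, Fintype.card_fin, nsmul_eq_mul, mul_one] at h1
  linarith

lemma sum3 {x y z : Fin 3} (hxy : x ≠ y) (hyz : y ≠ z) (hxz : x ≠ z) (F : Fin 3 → ℝ) :
    ∑ i, F i = F x + F y + F z := by
  have h : (univ : Finset (Fin 3)) = {x, y, z} := by
    revert hxy hyz hxz
    revert x y z
    decide
  rw [h, sum_insert (by simp [hxy, hxz]), sum_insert (by simp [hyz]), sum_singleton]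
  ring

open scoped Classical in
/-- the number of the `f l` congruent to `a` modulo the integers -/
noncomputable def cl {r : ℕ} (f : Fin r → ℝ) (a : ℝ) : ℕ :=
  (univ.filter fun l => ∃ k : ℤ, f l = a + k).card

lemma nextGe_eq (a E : ℝ) : nextGe a E = a + Int.fract (E - a) := by
  unfold nextGe
  have h : a - E = -(E - a) := by ring
  rw [h, Int.ceil_neg]
  unfold Int.fract
  push_cast
  ring

open scoped Classical in
lemma nextGe_neg_eq (a E : ℝ) : nextGe (-a) (-E) =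
    -a + (if ∃ k : ℤ, E = a + k then 0 else 1) - Int.fract (E - a) := by
  unfold nextGe
  have h : -a - -E = E - a := by ring
  rw [h]
  by_cases hf : Int.fract (E - a) = 0
  · have hk : ∃ k : ℤ, E = a + k := by
      obtain ⟨k, hk⟩ := Int.fract_eq_zero_iff.1 hf
      exact ⟨k, by linarith⟩
    rw [if_pos hk, hf]
    obtain ⟨k, hk⟩ := hk
    have : E - a = k := by linarith
    rw [this, Int.ceil_intCast]
    linarith
  · have hk : ¬ ∃ k : ℤ, E = a + k := by
      rintro ⟨k, hk⟩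
      apply hf
      have : E - a = k := by linarith
      rw [this, Int.fract_intCast]
    rw [if_neg hk, Int.ceil_eq_add_one_sub_fract hf]
    ring

open scoped Classical in
lemma nextGe_up (b η E : ℝ) (h0 : 0 < η) (h1 : η ≤ 1)
    (h2 : Int.fract (E - b) ≠ 0 → η ≤ Int.fract (E - b)) :
    nextGe (b + η) E ≤ b + (if ∃ k : ℤ, E = b + k then 1 else 0) + Int.fract (E - b) := by
  unfold nextGe
  have e : b + η - E = η - Int.fract (E - b) - (⌊E - b⌋ : ℤ) := by
    unfold Int.fract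
    ring
  rw [e, Int.ceil_sub_intCast]
  have e2 : E = b + Int.fract (E - b) + ⌊E - b⌋ := by
    unfold Int.fract
    ring
  by_cases hf : Int.fract (E - b) = 0
  · have hk : ∃ k : ℤ, E = b + k := ⟨⌊E - b⌋, by rw [hf] at e2; linarith⟩
    rw [if_pos hk]
    have h3 : ⌈η - Int.fract (E - b)⌉ ≤ 1 := by
      rw [Int.ceil_le, hf]
      push_cast
      linarith
    have h4 : ((⌈η - Int.fract (E - b)⌉ : ℤ) : ℝ) ≤ 1 := by exact_mod_cast h3
    push_cast
    linarith
  · have hk : ¬ ∃ k : ℤ, E = b + k := by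
      rintro ⟨k, hk⟩
      apply hf
      have : E - b = k := by linarith
      rw [this, Int.fract_intCast]
    rw [if_neg hk]
    have h3 : ⌈η - Int.fract (E - b)⌉ ≤ 0 := by
      rw [Int.ceil_le]
      have := h2 hf
      push_cast
      linarith
    have h4 : ((⌈η - Int.fract (E - b)⌉ : ℤ) : ℝ) ≤ 0 := by exact_mod_cast h3
    push_cast
    linarith

lemma nextGe_up_neg (b η E : ℝ) (h2 : η ≤ 1 - Int.fract (E - b)) :
    nextGe (-b + η) (-E) ≤ -b + 1 - Int.fract (E - b) := by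
  unfold nextGe
  have e : -b + η - -E = η + Int.fract (E - b) + (⌊E - b⌋ : ℤ) := by
    unfold Int.fract
    ring
  rw [e, Int.ceil_add_intCast]
  have e2 : E = b + Int.fract (E - b) + ⌊E - b⌋ := by
    unfold Int.fract
    ring
  have h3 : ⌈η + Int.fract (E - b)⌉ ≤ 1 := by
    rw [Int.ceil_le]
    push_cast
    linarith
  have h4 : ((⌈η + Int.fract (E - b)⌉ : ℤ) : ℝ) ≤ 1 := by exact_mod_cast h3
  push_cast
  linarith

lemma exists_eta {r : ℕ} (h : Fin r → ℝ) (h0 : ∀ l, 0 ≤ h l) (h1 : ∀ l, h l < 1) :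
    ∃ η : ℝ, 0 < η ∧ η ≤ 1 ∧ ∀ l, (h l ≠ 0 → η ≤ h l) ∧ η ≤ 1 - h l := by
  have key : ∀ q : ℝ, 0 < q → ∀ᶠ η in nhdsWithin (0 : ℝ) (Set.Ioi 0), η ≤ q := fun q hq =>
    Filter.Eventually.filter_mono nhdsWithin_le_nhds (Iic_mem_nhds hq)
  have k2 : ∀ᶠ η in nhdsWithin (0 : ℝ) (Set.Ioi 0), ∀ l, (h l ≠ 0 → η ≤ h l) ∧ η ≤ 1 - h l := by
    rw [Filter.eventually_all]
    intro l
    by_cases hl : h l = 0
    · filter_upwards [key (1 - h l) (by linarith [h1 l])] with η h3
      exact ⟨fun h4 => absurd hl h4, h3⟩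
    · filter_upwards [key (1 - h l) (by linarith [h1 l]),
        key (h l) (lt_of_le_of_ne (h0 l) (Ne.symm hl))] with η h3 h4
      exact ⟨fun _ => h4, h3⟩
  obtain ⟨η, h3, h4, h5⟩ := (k2.and ((key 1 one_pos).and self_mem_nhdsWithin)).exists
  exact ⟨η, h5, h4, h3⟩

open scoped Classical in
lemma cl_eq {r : ℕ} (f : Fin r → ℝ) (a : ℝ) :
    (∑ l, (if ∃ k : ℤ, f l = a + k then (1 : ℝ) else 0)) = cl f a := by
  unfold cl
  rw [Finset.sum_boole]

open scoped Classical in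
lemma cl_eq' {r : ℕ} (f : Fin r → ℝ) (a : ℝ) :
    (∑ l, (if ∃ k : ℤ, f l = a + k then (0 : ℝ) else 1)) = r - cl f a := by
  have h1 := cl_eq f a
  have h2 : (∑ l, (if ∃ k : ℤ, f l = a + k then (0 : ℝ) else 1)) +
      (∑ l, (if ∃ k : ℤ, f l = a + k then (1 : ℝ) else 0)) = r := by
    rw [← Finset.sum_add_distrib]
    have : ∀ l : Fin r, ((if ∃ k : ℤ, f l = a + k then (0 : ℝ) else 1) +
        (if ∃ k : ℤ, f l = a + k then (1 : ℝ) else 0)) = 1 := fun l => by
      split_ifs <;> norm_num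
    rw [Finset.sum_congr rfl fun l _ => this l]
    simp
  linarith

open scoped Classical in
/-- **The inequality for the multiplicities.** -/
lemma mult_ineq {r : ℕ} {E : Fin 3 → Fin r → ℝ} (h : Ineq E) (h' : Ineq (fun i l => -E i l))
    {x y z : Fin 3} (hxy : x ≠ y) (hyz : y ≠ z) (hxz : x ≠ z) (a c : ℝ) :
    cl (E y) a + cl (E z) c ≤ r + cl (E x) (-a - c) := by
  obtain ⟨η, hη0, hη1, hη⟩ := exists_eta (fun l => Int.fract (E x l - (-a - c)))
    (fun l => Int.fract_nonneg _) (fun l => Int.fract_lt_one _)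
  have k1 := h (fun i => if i = y then a else if i = z then c else (-a - c) + η) (by
    rw [sum3 hxy hyz hxz]
    simp only [if_neg hxy, if_neg hxz, if_true, if_neg hyz.symm]
    linarith)
  have k2 := h' (fun i => if i = y then -a else if i = z then -c else -(-a - c) + η) (by
    rw [sum3 hxy hyz hxz]
    simp only [if_neg hxy, if_neg hxz, if_true, if_neg hyz.symm]
    linarith)
  rw [sum3 hxy hyz hxz] at k1 k2
  simp only [if_neg hxy, if_neg hxz, if_true, if_neg hyz.symm] at k1 k2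
  have i1 : ∑ l, nextGe ((-a - c) + η) (E x l) ≤
      ∑ l, ((-a - c) + (if ∃ k : ℤ, E x l = (-a - c) + k then 1 else 0) +
        Int.fract (E x l - (-a - c))) :=
    Finset.sum_le_sum fun l _ => nextGe_up _ _ _ hη0 hη1 (hη l).1
  have i2 : ∑ l, nextGe (-(-a - c) + η) (-E x l) ≤
      ∑ l, (-(-a - c) + 1 - Int.fract (E x l - (-a - c))) :=
    Finset.sum_le_sum fun l _ => nextGe_up_neg _ _ _ (hη l).2
  simp only [nextGe_eq a, nextGe_eq c] at k1
  simp only [nextGe_neg_eq] at k2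
  simp only [Finset.sum_add_distrib, Finset.sum_sub_distrib, Finset.sum_const, Finset.card_univ,
    Fintype.card_fin, nsmul_eq_mul, cl_eq, cl_eq'] at k1 k2 i1 i2
  have k3 : ((cl (E y) a : ℝ) + cl (E z) c) ≤ r + cl (E x) (-a - c) := by
    linarith
  exact_mod_cast k3

/-- Equal multiplicities give a permutation. -/
lemma matching {r : ℕ} {X Y : Fin r → ℝ} {c : ℝ} (h : ∀ a, cl X a ≤ cl Y (-a - c)) :
    ∃ σ : Equiv.Perm (Fin r), ∀ l, ∃ k : ℤ, X l + Y (σ l) + c = k := by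
  classical
  have h1 : ∀ l₀ : Fin r, Nonempty ({l // ∃ k : ℤ, X l = X l₀ + k} ↪
      {l // ∃ k : ℤ, Y l = (-X l₀ - c) + k}) := by
    intro l₀
    apply Function.Embedding.nonempty_of_card_le
    rw [Fintype.card_subtype, Fintype.card_subtype]
    have := h (X l₀)
    unfold cl at this
    convert this
  -- representatives of the classes
  have hrep : ∃ ρ : Fin r → Fin r, (∀ l, ∃ k : ℤ, X l = X (ρ l) + k) ∧
      ∀ l l', (∃ k : ℤ, X l = X l' + k) → ρ l = ρ l' := by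
    let s : Setoid (Fin r) := ⟨fun l l' => ∃ k : ℤ, X l = X l' + k,
      ⟨fun l => ⟨0, by simp⟩, fun {l l'} ⟨k, hk⟩ => ⟨-k, by push_cast; linarith⟩,
        fun {l l' l''} ⟨k, hk⟩ ⟨k', hk'⟩ => ⟨k + k', by push_cast; linarith⟩⟩⟩
    refine ⟨fun l => (Quotient.mk s l).out, fun l => ?_, fun l l' hl => ?_⟩
    · have h2 : s.r (Quotient.mk s l).out l := Quotient.mk_out (s := s) l
      exact s.symm h2
    · have h2 : Quotient.mk s l = Quotient.mk s l' := Quotient.sound (s := s) hl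
      simp only [h2]
  obtain ⟨ρ, hρ1, hρ2⟩ := hrep
  let ι : ∀ l₀ : Fin r, {l // ∃ k : ℤ, X l = X l₀ + k} ↪ {l // ∃ k : ℤ, Y l = (-X l₀ - c) + k} :=
    fun l₀ => (h1 l₀).some
  let σ : Fin r → Fin r := fun l => (ι (ρ l) ⟨l, hρ1 l⟩).1
  have hσ : ∀ l, ∃ k : ℤ, Y (σ l) = (-X (ρ l) - c) + k := fun l => (ι (ρ l) ⟨l, hρ1 l⟩).2
  have hclass : ∀ l l', σ l = σ l' → ρ l = ρ l' := by
    intro l l' hl
    apply hρ2
    obtain ⟨k1, hk1⟩ := hσ l
    obtain ⟨k2, hk2⟩ := hσ l'
    obtain ⟨k3, hk3⟩ := hρ1 l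
    obtain ⟨k4, hk4⟩ := hρ1 l'
    rw [hl] at hk1
    refine ⟨k1 - k2 + k3 - k4, ?_⟩
    push_cast
    linarith
  have hinj : Function.Injective σ := by
    intro l l' hl
    have h2 := hclass l l' hl
    have h3 : ∀ (q : Fin r) (p1 : ∃ k : ℤ, X l = X q + k) (p2 : ∃ k : ℤ, X l' = X q + k),
        (ι q ⟨l, p1⟩).1 = (ι q ⟨l', p2⟩).1 → l = l' := by
      intro q p1 p2 hq
      have h4 := (ι q).injective (Subtype.ext hq)
      exact congrArg Subtype.val h4
    apply h3 (ρ l) (hρ1 l) (h2 ▸ hρ1 l')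
    have h5 : ∀ (q q' : Fin r) (e : q = q') (p : ∃ k : ℤ, X l' = X q' + k)
        (p' : ∃ k : ℤ, X l' = X q + k), (ι q ⟨l', p'⟩).1 = (ι q' ⟨l', p⟩).1 := by
      intro q q' e p p'
      subst e
      rfl
    rw [h5 (ρ l) (ρ l') h2 (hρ1 l')]
    exact hl
  refine ⟨Equiv.ofBijective σ (Finite.injective_iff_bijective.1 hinj), fun l => ?_⟩
  obtain ⟨k1, hk1⟩ := hσ l
  obtain ⟨k3, hk3⟩ := hρ1 l
  refine ⟨k1 + k3, ?_⟩
  rw [Equiv.ofBijective_apply]
  push_cast
  linarith

end Pool.Agent.L5helper23.RP
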