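import Pool.Agent.Y227.SS.Uniform
import Pool.Agent.W432.TC.Final

set_option autoImplicit false

/-!
Multiples of the exponents by integers prime to a number `M` which depends only on the rank and the number of
points.
-/

open Polynomial

namespace Pool.Agent.L5helper23.RP

open Pool.Agent.W432.PC Pool.Agent.W432.TC Pool.Agent.Y227.SS

universe u

section

variable {n r : ℕ}

/-- The Weyl inequalities and semistability. -/
def Nice (z : ExponentIndex n r → ℝ) : Prop :=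
  WeylBoth z ∧ SemistableWeights ℂ (fun j l => z (Sum.inl (j, l))) (fun l => z (Sum.inr l))

lemma nice_open (y : ExponentIndex n r → ℝ)
    (hy : (∃ e : ℤ, ∑ i, (traceRelation n r i : ℝ) * y i = e) ∧ ¬ Nice y) :
    ∃ δ : ℝ, 0 < δ ∧ ∀ x : ExponentIndex n r → ℝ,
      (∃ z : ℤ, ∑ i, (traceRelation n r i : ℝ) * x i = z) →
      (∀ i, ∃ z : ℤ, |x i - y i - z| < δ) →
      (∃ e : ℤ, ∑ i, (traceRelation n r i : ℝ) * x i = e) ∧ ¬ Nice x := by
  obtain ⟨⟨e, he⟩, hz⟩ := hy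
  unfold Nice at hz
  rw [not_and_or] at hz
  rcases hz with hz | hz
  · rw [tr_sum] at he
    unfold WeylBoth at hz
    rw [not_and_or] at hz
    rcases hz with hz | hz
    · obtain ⟨δ, hδ, h⟩ := weyl_open _ _ ⟨e, he⟩ hz
      refine ⟨δ, hδ, fun x hx hnear => ⟨hx, fun hW => ?_⟩⟩
      exact h _ _ (fun j l => hnear _) (fun l => hnear _) hW.1.1
    · obtain ⟨δ, hδ, h⟩ := weyl_open _ _ ⟨-e, by
        simp only [Finset.sum_neg_distrib]; push_cast; rw [← he]; ring⟩ hz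
      refine ⟨δ, hδ, fun x hx hnear => ⟨hx, fun hW => ?_⟩⟩
      refine h _ _ (fun j l => ?_) (fun l => ?_) hW.1.2
      · obtain ⟨z', hz'⟩ := hnear (Sum.inl (j, l))
        refine ⟨-z', ?_⟩
        push_cast
        rw [← abs_neg]
        have h1 : -(-x (Sum.inl (j, l)) - -y (Sum.inl (j, l)) - -(z' : ℝ)) =
          x (Sum.inl (j, l)) - y (Sum.inl (j, l)) - z' := by ring
        rw [h1]
        exact hz'
      · obtain ⟨z', hz'⟩ := hnear (Sum.inr l)
        refine ⟨-z', ?_⟩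
        push_cast
        rw [← abs_neg]
        have h1 : -(-x (Sum.inr l) - -y (Sum.inr l) - -(z' : ℝ)) =
          x (Sum.inr l) - y (Sum.inr l) - z' := by ring
        rw [h1]
        exact hz'
  · obtain ⟨δ, hδ, h⟩ := semistable_open y hz
    exact ⟨δ, hδ, fun x hx hnear => ⟨hx, fun hN => h x hnear hN.2⟩⟩

end

/-- A torsion coset is invariant under the multiplication with the integers congruent to one modulo the
denominators of its base point. -/
lemma inCoset_mul {I : Type*} [Fintype I] {L : AddSubgroup (I → ℤ)} {c x : I → ℚ} {M : ℤ}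
    (hM : ∀ i, ∃ k : ℤ, (M : ℚ) * c i = k) {a e f : ℤ} (hf : M ∣ f - 1)
    (hx : ∀ i, ∃ k : ℤ, ((e - f * a : ℤ) : ℚ) * x i = k)
    (h : InCoset L c (fun i => (a : ℝ) * x i)) : InCoset L c (fun i => (e : ℝ) * x i) := by
  intro m hm
  obtain ⟨z, hz⟩ := h m hm
  choose k hk using hx
  choose q hq using hM
  obtain ⟨s, hs⟩ := hf
  refine ⟨∑ i, m i * k i + f * z + s * ∑ i, m i * q i, ?_⟩
  push_cast
  rw [← hz, Finset.mul_sum, Finset.mul_sum, ← Finset.sum_add_distrib, ← Finset.sum_add_distrib]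
  refine Finset.sum_congr rfl fun i _ => ?_
  have hk' : ((e : ℝ) - f * a) * x i = k i := by
    have := congrArg (fun q : ℚ => (q : ℝ)) (hk i)
    push_cast at this
    exact this
  have hq' : (M : ℝ) * c i = q i := by
    have := congrArg (fun q : ℚ => (q : ℝ)) (hq i)
    push_cast at this
    exact this
  have hs' : (f : ℝ) - 1 = M * s := by exact_mod_cast hs
  rw [← hk', ← hq']
  linear_combination (m i : ℝ) * (c i : ℝ) * hs'

/-- For `e` prime to `M` there are `a` prime to `N` and `f` congruent to one modulo `M` such that `e` is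
congruent to `f a` modulo `N`. -/
lemma exists_unit (M N : ℕ) (hM : 0 < M) (hN : 0 < N) (e : ℤ) (he : IsCoprime e (M : ℤ)) :
    ∃ a f : ℤ, IsCoprime a (N : ℤ) ∧ (M : ℤ) ∣ f - 1 ∧ (N : ℤ) ∣ e - f * a := by
  have : NeZero (N * M) := ⟨(Nat.mul_pos hN hM).ne'⟩
  have hu : IsUnit ((e : ℤ) : ZMod M) := by
    obtain ⟨u, v, huv⟩ := he
    have h1 := congrArg (fun k : ℤ => (k : ZMod M)) huv
    push_cast at h1
    rw [ZMod.natCast_self, mul_zero, add_zero] at h1
    exact IsUnit.of_mul_eq_one _ (by rw [mul_comm]; exact h1)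
  obtain ⟨w, hw⟩ := ZMod.unitsMap_surjective (Dvd.intro_left N rfl : M ∣ N * M) hu.unit
  have hwe : (ZMod.castHom (Dvd.intro_left N rfl : M ∣ N * M) (ZMod M)) (w : ZMod (N * M)) = ((e : ℤ) : ZMod M) := by
    have h2 := congrArg (fun v : (ZMod M)ˣ => (v : ZMod M)) hw
    simp only [ZMod.unitsMap_def, Units.coe_map] at h2
    exact h2
  set a : ℤ := (((w : ZMod (N * M)).val : ℕ) : ℤ) with ha
  set b : ℤ := ((((w⁻¹ : (ZMod (N * M))ˣ) : ZMod (N * M)).val : ℕ) : ℤ) with hb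
  have haZ : ((a : ℤ) : ZMod (N * M)) = (w : ZMod (N * M)) := by
    rw [ha]; push_cast; rw [ZMod.natCast_zmod_val]
  have hbZ : ((b : ℤ) : ZMod (N * M)) = ((w⁻¹ : (ZMod (N * M))ˣ) : ZMod (N * M)) := by
    rw [hb]; push_cast; rw [ZMod.natCast_zmod_val]
  have hab : ((N * M : ℕ) : ℤ) ∣ a * b - 1 := by
    rw [← ZMod.intCast_zmod_eq_zero_iff_dvd]
    push_cast
    rw [haZ, hbZ, Units.mul_inv, sub_self]
  have hae : (M : ℤ) ∣ e - a := by
    rw [← ZMod.intCast_zmod_eq_zero_iff_dvd]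
    push_cast
    rw [← hwe, sub_eq_zero, ← haZ, map_intCast]
  obtain ⟨s, hs⟩ := hab
  obtain ⟨t, ht⟩ := hae
  push_cast at hs
  refine ⟨a, e * b, ⟨b, -(M * s), by linear_combination hs⟩, ⟨t * b + N * s, ?_⟩, ⟨-(M * s * e), ?_⟩⟩
  · linear_combination b * ht + hs
  · linear_combination -e * hs

section

theorem multiples (n r : ℕ) :
    ∃ (ε : ℝ) (M : ℕ), 0 < ε ∧ 0 < M ∧
      ∀ (R : Type u) [CommRing R] [IsDomain R] [CharZero R] [Algebra.FiniteType ℤ R]
        (α : Fin n → R) (A : Fin n → Matrix (Fin r) (Fin r) R)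
        (lam : Fin n → Fin r → ℚ) (phi : Fin r → ℚ) (N : ℕ),
        (∀ i j, i ≠ j → IsUnit (α i - α j)) →
        (∀ j, HasExponents (A j) (lam j)) → HasExponents (∑ j, A j) phi →
        0 < N → (∀ j l, ∃ m : ℤ, (N : ℚ) * lam j l = m) → (∀ l, ∃ m : ℤ, (N : ℚ) * phi l = m) →
        (∀ e : ℤ, IsCoprime e (M : ℤ) → Nice (fun i => (e : ℝ) *
            ((Sum.elim (fun p => lam p.1 p.2) phi : ExponentIndex n r → ℚ) i : ℝ))) ∨
          (BadClasses α A N ε 1 ∧ ¬ CondII α A) := by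
  classical
  obtain ⟨ε₁, hε₁, hgap₁⟩ := Pool.Agent.Y227.UD.gap (I := ExponentIndex n r) (traceRelation n r)
    {z | (∃ e : ℤ, ∑ i, (traceRelation n r i : ℝ) * z i = e) ∧ ¬ Nice z}
    (fun y hy => nice_open y hy)
  obtain ⟨𝒟, h𝒟, hcov⟩ := torsion_cosets (I := ExponentIndex n r) (traceRelation n r)
    {z | (∃ e : ℤ, ∑ i, (traceRelation n r i : ℝ) * z i = e) ∧ ¬ Nice z}
    (fun y hy => nice_open y hy)
  have hC : ∀ C ∈ 𝒟, ∀ z : ExponentIndex n r → ℝ, InCoset C.1 C.2 z → Nice z := by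
    intro C hC z hz
    by_contra h
    obtain ⟨-, h1, ⟨e, h2⟩, h3⟩ := h𝒟 C hC
    refine h3 z hz ⟨?_, h⟩
    obtain ⟨e', he'⟩ := hz _ h1
    refine ⟨e' + e, ?_⟩
    have h4 : ∑ i, (traceRelation n r i : ℝ) * C.2 i = e := by
      have := congrArg (fun q : ℚ => (q : ℝ)) h2
      push_cast at this
      exact this
    push_cast
    rw [← he', ← h4, ← Finset.sum_add_distrib]
    exact Finset.sum_congr rfl fun i _ => by ring
  obtain ⟨M, hM0, hM⟩ : ∃ M : ℕ, 0 < M ∧ ∀ C ∈ 𝒟, ∀ i, ∃ k : ℤ, ((M : ℤ) : ℚ) * C.2 i = k := by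
    refine ⟨∏ C ∈ 𝒟, ∏ i, (C.2 i).den, Finset.prod_pos fun C _ => Finset.prod_pos fun i _ =>
      (C.2 i).den_pos, fun C hC i => ?_⟩
    have h1 : (C.2 i).den ∣ ∏ C ∈ 𝒟, ∏ i, (C.2 i).den :=
      (Finset.dvd_prod_of_mem (fun i => (C.2 i).den) (Finset.mem_univ i)).trans
        (Finset.dvd_prod_of_mem (fun C : AddSubgroup (ExponentIndex n r → ℤ) ×
          (ExponentIndex n r → ℚ) => ∏ i, (C.2 i).den) hC)
    obtain ⟨k, hk⟩ := h1
    refine ⟨k * (C.2 i).num, ?_⟩
    rw [hk]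
    push_cast
    have h2 := Rat.den_mul_eq_num (C.2 i)
    calc ((C.2 i).den : ℚ) * k * C.2 i = k * ((C.2 i).den * C.2 i) := by ring
      _ = _ := by rw [h2]
  refine ⟨ε₁, M, hε₁, hM0, ?_⟩
  intro R _ _ _ _ α A lam phi N hα hlam hphi hN hNlam hNphi
  have : NeZero N := ⟨hN.ne'⟩
  have := charZero_fraction (R := R)
  set x : ExponentIndex n r → ℚ := Sum.elim (fun p => lam p.1 p.2) phi with hx
  have hNx : ∀ i, ∃ z : ℤ, (N : ℚ) * x i = z := by
    rintro (⟨j, l⟩ | l)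
    · exact hNlam j l
    · exact hNphi l
  have htr : ∑ i, (traceRelation n r i : ℚ) * x i = 0 := by
    rw [tr_sum]
    simp only [hx, Sum.elim_inl, Sum.elim_inr]
    have h1 := HasExponents.trace hphi
    have h2 := fun j => HasExponents.trace (hlam j)
    have h3 : (∑ j, A j).trace = ∑ j, (A j).trace := by
      rw [Matrix.trace_sum]
    rw [h3, map_sum, Finset.sum_congr rfl fun j _ => h2 j] at h1
    have h4 : ((∑ j, ∑ l, lam j l : ℚ) : FractionRing R) =
        ((∑ l, phi l : ℚ) : FractionRing R) := by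
      push_cast
      push_cast at h1
      exact h1
    have h5 : ∑ j, ∑ l, lam j l = ∑ l, phi l := by exact_mod_cast h4
    rw [h5, sub_self]
  have htrZ : ∀ a : ℤ, ∃ z : ℤ, ∑ i, (traceRelation n r i : ℚ) * ((a : ℚ) * x i) = z := by
    intro a
    refine ⟨0, ?_⟩
    rw [Int.cast_zero]
    calc ∑ i, (traceRelation n r i : ℚ) * ((a : ℚ) * x i) =
          a * ∑ i, (traceRelation n r i : ℚ) * x i := by
            rw [Finset.mul_sum]
            exact Finset.sum_congr rfl fun i _ => by ring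
      _ = 0 := by rw [htr, mul_zero]
  have htrR : ∀ a : ℤ, ∃ e : ℤ, ∑ i, (traceRelation n r i : ℝ) * ((a : ℝ) * x i) = e := by
    intro a
    obtain ⟨z, hz⟩ := htrZ a
    refine ⟨z, ?_⟩
    have := congrArg (fun q : ℚ => (q : ℝ)) hz
    push_cast at this
    exact this
  have hrep : ∀ u : (ZMod N)ˣ, (((((u : (ZMod N)ˣ) : ZMod N).val : ℤ)) : ZMod N) =
      ((u : (ZMod N)ˣ) : ZMod N) := by
    intro u
    push_cast; rw [ZMod.natCast_zmod_val]
  by_cases hnice : ∀ a : ℤ, IsCoprime a (N : ℤ) → Nice (fun i => (a : ℝ) * x i)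
  · left
    intro e he
    obtain ⟨a, f, ha, hf, hfa⟩ := exists_unit M N hM0 hN e he
    obtain ⟨C, hCD, hCa⟩ := hcov (fun i => (a : ℚ) * x i) (htrZ a) ⟨N, hN, fun i => by
      obtain ⟨w, hw⟩ := hNx i
      refine ⟨a * w, ?_⟩
      push_cast
      rw [← hw]
      ring, fun b hb h => h.2 (by
        have h1 := hnice (b * a) (hb.mul_left ha)
        have h2 : (fun i => (((b * a : ℤ) : ℝ)) * (x i : ℝ)) =
            fun i => (b : ℝ) * (((a : ℚ) * x i : ℚ) : ℝ) := by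
          funext i
          push_cast
          ring
        rw [h2] at h1
        exact h1)⟩
    refine hC C hCD _ (inCoset_mul (hM C hCD) hf (fun i => ?_) (a := a) (x := x) ?_)
    · obtain ⟨w, hw⟩ := hNx i
      obtain ⟨s, hs⟩ := hfa
      refine ⟨s * w, ?_⟩
      rw [hs]
      push_cast
      rw [← hw]
      ring
    · have h2 : (fun i => (((a : ℚ) * x i : ℚ) : ℝ)) = fun i => (a : ℝ) * (x i : ℝ) := by
        funext i
        push_cast
        ring
      rw [h2] at hCa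
      exact hCa
  · right
    push Not at hnice
    obtain ⟨a₀, ha₀, hna₀⟩ := hnice
    obtain ⟨S, hS1, hS2⟩ := hgap₁ x (by
      have := htrZ 1
      simpa using this) N hN hNx ⟨a₀, ha₀, htrR a₀, hna₀⟩
    have hbad : BadClasses α A N ε₁ (∏ u ∈ S, (fun _ => (1 : R)) u) := by
      refine collect' α A N hN _ S hS1 (fun _ => (1 : R)) fun u hu => ⟨_, hrep u, ?_⟩
      have h1 := (hS2 u hu _ (hrep u)).2
      unfold Nice at h1
      rw [not_and_or] at h1
      obtain ⟨P₀, hP₀⟩ : ∃ P₀ : ℕ, ∀ p : ℕ, p.Prime → P₀ < p →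
          (N : ℤ) ∣ (((u : (ZMod N)ˣ) : ZMod N).val : ℤ) * p + 1 →
          ∀ (𝔪 : Ideal R) [𝔪.IsMaximal], (p : R) ∈ 𝔪 → ¬ PCurvZeroAt α A 𝔪 := by
        rcases h1 with h1 | h1
        · exact exists_bad α hα A lam phi hlam hphi N hN hNlam hNphi _ h1
        · exact (Pool.Agent.Y227.SS.final α hα A lam phi hlam hphi N hN hNlam hNphi
            (((u : (ZMod N)ˣ) : ZMod N).val : ℤ)).1 h1
      exact ⟨P₀, fun p hp hpP hap 𝔪 _ hpm _ => hP₀ p hp hpP hap 𝔪 hpm⟩
    rw [Finset.prod_const_one] at hbad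
    exact ⟨hbad, hbad.not_condII hN hε₁ one_ne_zero⟩

end

end Pool.Agent.L5helper23.RP
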