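import Pool.Agent.L5helper23.RP.Arc

set_option autoImplicit false

/-!
Relations between the exponents at infinity.
-/

namespace Pool.Agent.L5helper23.RP

open Pool.Agent.W432.PC Pool.Agent.W432.TC Pool.Agent.Y227.SS Finset

/-- Linear algebra: a vector orthogonal to `P` with prescribed coordinates in `A`. -/
lemma exists_delta {r : ℕ} (P : Submodule ℚ (Fin r → ℚ)) (A : Finset (Fin r))
    (hA : ∀ u ∈ P, (∀ l, l ∉ A → u l = 0) → u = 0) (g : Fin r → ℚ) :
    ∃ δ : Fin r → ℚ, (∀ u ∈ P, ∑ l, u l * δ l = 0) ∧ ∀ l ∈ A, δ l = g l := by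
  classical
  let Q : Submodule ℚ (Fin r → ℚ) :=
    { carrier := {u | ∀ l, l ∉ A → u l = 0}
      add_mem' := fun {a b} ha hb l hl => by
        show a l + b l = 0
        rw [ha l hl, hb l hl, add_zero]
      zero_mem' := fun l _ => rfl
      smul_mem' := fun c a ha l hl => by
        show c * a l = 0
        rw [ha l hl, mul_zero] }
  let T : Q →ₗ[ℚ] ((Fin r → ℚ) ⧸ P) := P.mkQ ∘ₗ Q.subtype
  have hT : LinearMap.ker T = ⊥ := by
    rw [LinearMap.ker_eq_bot']
    intro m hm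
    have h1 : (m : Fin r → ℚ) ∈ P := by
      have : P.mkQ (m : Fin r → ℚ) = 0 := hm
      rwa [Submodule.mkQ_apply, Submodule.Quotient.mk_eq_zero] at this
    exact Subtype.ext (hA _ h1 m.2)
  obtain ⟨S, hS⟩ := T.exists_leftInverse_of_injective hT
  let φ₀ : Q →ₗ[ℚ] ℚ := (∑ l, (g l) • (LinearMap.proj l : (Fin r → ℚ) →ₗ[ℚ] ℚ)) ∘ₗ Q.subtype
  let φ : (Fin r → ℚ) →ₗ[ℚ] ℚ := φ₀ ∘ₗ S ∘ₗ P.mkQ
  have hφ : ∀ u : Fin r → ℚ, φ u = ∑ l, u l * φ (Pi.single l 1) := by
    intro u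
    conv_lhs => rw [LinearMap.pi_apply_eq_sum_univ φ u]
    refine Finset.sum_congr rfl fun l _ => ?_
    rw [smul_eq_mul]
    congr 2
    funext i
    rw [Pi.single_apply]
    simp only [eq_comm]
  refine ⟨fun l => φ (Pi.single l 1), fun u hu => ?_, fun l hl => ?_⟩
  · rw [← hφ]
    show φ₀ (S (P.mkQ u)) = 0
    have : P.mkQ u = 0 := by
      rw [Submodule.mkQ_apply, Submodule.Quotient.mk_eq_zero]
      exact hu
    rw [this, map_zero, map_zero]
  · have hq : (Pi.single l 1 : Fin r → ℚ) ∈ Q := by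
      intro i hi
      have : i ≠ l := by
        rintro rfl
        exact hi hl
      rw [Pi.single_apply, if_neg this]
    show φ₀ (S (P.mkQ (Pi.single l 1))) = g l
    have h1 : S (T ⟨Pi.single l 1, hq⟩) = ⟨Pi.single l 1, hq⟩ := by
      have := congrArg (fun f => f ⟨Pi.single l 1, hq⟩) hS
      exact this
    have h2 : S (P.mkQ (Pi.single l 1)) = ⟨Pi.single l 1, hq⟩ := h1
    rw [h2]
    simp [φ₀, Pi.single_apply]

variable {r : ℕ}

/-- a relation supported in `A` at infinity -/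
def RelIn (L : AddSubgroup (ExponentIndex 2 r → ℤ)) (A : Finset (Fin r)) (m : ExponentIndex 2 r → ℤ) :
    Prop :=
  m ∈ L ∧ (∃ l, m (Sum.inr l) ≠ 0) ∧ ∀ l, l ∉ A → m (Sum.inr l) = 0

/-- A point of the coset with prescribed exponents in `A` at infinity. -/
lemma exists_point {L : AddSubgroup (ExponentIndex 2 r → ℤ)} {c : ExponentIndex 2 r → ℚ}
    {x : ExponentIndex 2 r → ℚ} (hx : InCoset L c (fun i => (x i : ℝ))) (A : Finset (Fin r))
    (hA : ∀ m, ¬ RelIn L A m) (a : ℚ) :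
    ∃ z : ExponentIndex 2 r → ℝ, InCoset L c z ∧ (∀ p, z (Sum.inl p) = x (Sum.inl p)) ∧
      ∀ l ∈ A, z (Sum.inr l) = a := by
  classical
  let P : Submodule ℚ (Fin r → ℚ) :=
    { carrier := {u | ∃ d : ℤ, d ≠ 0 ∧ ∃ m ∈ L, ∀ l, (d : ℚ) * u l = m (Sum.inr l)}
      add_mem' := by
        rintro u v ⟨d, hd, m, hm, h1⟩ ⟨d', hd', m', hm', h2⟩
        refine ⟨d * d', mul_ne_zero hd hd', d' • m + d • m', L.add_mem (L.zsmul_mem hm _) (L.zsmul_mem hm' _),
          fun l => ?_⟩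
        have h3 := h1 l
        have h4 := h2 l
        simp only [Pi.add_apply, Pi.smul_apply, smul_eq_mul]
        push_cast
        linear_combination (d' : ℚ) * h3 + (d : ℚ) * h4
      zero_mem' := ⟨1, one_ne_zero, 0, L.zero_mem, fun l => by simp⟩
      smul_mem' := by
        rintro q u ⟨d, hd, m, hm, h1⟩
        refine ⟨d * q.den, mul_ne_zero hd (by exact_mod_cast q.den_ne_zero), q.num • m, L.zsmul_mem hm _,
          fun l => ?_⟩
        have h3 := h1 l
        have h4 : (q.den : ℚ) * q = q.num := Rat.den_mul_eq_num q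
        simp only [Pi.smul_apply, smul_eq_mul]
        push_cast
        linear_combination (q.num : ℚ) * h3 + (d : ℚ) * u l * h4 }
  obtain ⟨δ, hδ1, hδ2⟩ := exists_delta P A (by
    rintro u ⟨d, hd, m, hm, h1⟩ hu
    by_contra hne
    apply hA m
    refine ⟨hm, ?_, fun l hl => ?_⟩
    · obtain ⟨l, hl⟩ := Function.ne_iff.1 hne
      refine ⟨l, fun h0 => hl ?_⟩
      have h3 := h1 l
      rw [h0, Int.cast_zero, mul_eq_zero] at h3
      rcases h3 with h3 | h3
      · exact absurd (by exact_mod_cast h3) hd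
      · exact h3
    · have h3 := h1 l
      rw [hu l hl, mul_zero] at h3
      exact_mod_cast h3.symm) (fun l => a - x (Sum.inr l))
  refine ⟨Sum.elim (fun p => (x (Sum.inl p) : ℝ)) (fun l => (x (Sum.inr l) : ℝ) + δ l), ?_, fun p => rfl,
    fun l hl => ?_⟩
  · intro m hm
    obtain ⟨z, hz⟩ := hx m hm
    refine ⟨z, ?_⟩
    rw [← hz, Fintype.sum_sum_type, Fintype.sum_sum_type]
    simp only [Sum.elim_inl, Sum.elim_inr]
    have h1 := hδ1 (fun l => (m (Sum.inr l) : ℚ)) ⟨1, one_ne_zero, m, hm, fun l => by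
      rw [Int.cast_one, one_mul]⟩
    have h2 : ∑ l, (m (Sum.inr l) : ℝ) * (δ l : ℝ) = 0 := by
      have := congrArg (fun q : ℚ => (q : ℝ)) h1
      push_cast at this
      exact this
    have h3 : ∑ l, (m (Sum.inr l) : ℝ) * ((x (Sum.inr l) : ℝ) + δ l - c (Sum.inr l)) =
        ∑ l, (m (Sum.inr l) : ℝ) * ((x (Sum.inr l) : ℝ) - c (Sum.inr l)) +
          ∑ l, (m (Sum.inr l) : ℝ) * (δ l : ℝ) := by
      rw [← Finset.sum_add_distrib]
      exact Finset.sum_congr rfl fun l _ => by ring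
    rw [h3, h2, add_zero]
  · simp only [Sum.elim_inr]
    rw [hδ2 l hl]
    push_cast
    ring

/-- **Many exponents at infinity satisfy a relation.** -/
lemma exists_relIn {L : AddSubgroup (ExponentIndex 2 r → ℤ)} {c : ExponentIndex 2 r → ℚ}
    (H : ∀ z, InCoset L c z → WeylBoth z) {x : ExponentIndex 2 r → ℚ}
    (hx : InCoset L c (fun i => (x i : ℝ))) {p q : ℕ} (hp : 0 < p) (hq : 0 < q)
    (h0 : EquiR p (fun l => (x (Sum.inl (0, l)) : ℝ))) (h1 : EquiR q (fun l => (x (Sum.inl (1, l)) : ℝ)))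
    (A : Finset (Fin r)) (hA : (r : ℝ) * (1 - 1 / p - 1 / q + 1 / (Nat.lcm p q : ℕ)) < A.card) :
    ∃ m, RelIn L A m := by
  classical
  by_contra hcon
  push Not at hcon
  have hl : 0 < Nat.lcm p q := Nat.lcm_pos hp hq
  have hl' : (0 : ℝ) < (Nat.lcm p q : ℕ) := by exact_mod_cast hl
  obtain ⟨z, hz, hz1, hz2⟩ := exists_point hx A hcon (-(1 / (2 * (Nat.lcm p q : ℕ))))
  have hW := H z hz
  unfold WeylBoth at hW
  let E : Fin 3 → Fin r → ℝ := ![fun l => z (Sum.inl (0, l)), fun l => z (Sum.inl (1, l)),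
    fun l => -z (Sum.inr l)]
  have hE1 : Ineq E := by
    apply ineq_of_weyl
    have h2 := hW.1
    convert h2 using 1
    · funext j l
      fin_cases j <;> rfl
    · funext l
      simp [E]
  have hE2 : Ineq (fun i l => -E i l) := by
    apply ineq_of_weyl
    have h2 := hW.2
    convert h2 using 1
    · funext j l
      fin_cases j <;> rfl
    · funext l
      simp [E]
  have h2 := arc hE1 hE2 hp hq (by
    have : E 0 = fun l => (x (Sum.inl (0, l)) : ℝ) := by
      funext l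
      exact hz1 (0, l)
    rw [this]
    exact h0) (by
    have : E 1 = fun l => (x (Sum.inl (1, l)) : ℝ) := by
      funext l
      exact hz1 (1, l)
    rw [this]
    exact h1) 0 1 (by norm_num)
  have h3 : A ⊆ univ.filter fun l => ∃ m : ℤ, ((0 : ℤ) : ℝ) / (Nat.lcm p q : ℕ) < E 2 l + m ∧
      E 2 l + m < ((1 : ℤ) : ℝ) / (Nat.lcm p q : ℕ) := by
    intro l hl2
    rw [mem_filter]
    refine ⟨mem_univ _, 0, ?_⟩
    have h4 : E 2 l = 1 / (2 * ((Nat.lcm p q : ℕ) : ℝ)) := by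
      show -z (Sum.inr l) = _
      rw [hz2 l hl2]
      push_cast
      ring
    rw [h4]
    push_cast
    constructor
    · rw [zero_div]
      positivity
    · rw [add_zero]
      apply one_div_lt_one_div_of_lt hl'
      linarith
  have h4 : (A.card : ℝ) ≤ ((univ.filter fun l => ∃ m : ℤ, ((0 : ℤ) : ℝ) / (Nat.lcm p q : ℕ) < E 2 l + m ∧
      E 2 l + m < ((1 : ℤ) : ℝ) / (Nat.lcm p q : ℕ)).card : ℝ) := by
    exact_mod_cast Finset.card_le_card h3
  have h5 : (((1 : ℤ) : ℝ) - ((0 : ℤ) : ℝ)) / (Nat.lcm p q : ℕ) = 1 / (Nat.lcm p q : ℕ) := by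
    push_cast
    ring
  rw [h5] at h2
  linarith

/-- The relations can be chosen in a finite set. -/
lemma exists_bound_rel (𝒟 : Finset (AddSubgroup (ExponentIndex 2 r → ℤ) × (ExponentIndex 2 r → ℚ))) :
    ∃ B : ℕ, ∀ C ∈ 𝒟, ∀ A : Finset (Fin r), (∃ m, RelIn C.1 A m) →
      ∃ m, RelIn C.1 A m ∧ ∀ i, |m i| ≤ B := by
  classical
  let f : (AddSubgroup (ExponentIndex 2 r → ℤ) × (ExponentIndex 2 r → ℚ)) → Finset (Fin r) →
      (ExponentIndex 2 r → ℤ) := fun C A => if h : ∃ m, RelIn C.1 A m then h.choose else 0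
  refine ⟨∑ C ∈ 𝒟, ∑ A : Finset (Fin r), ∑ i, (f C A i).natAbs, fun C hC A h => ?_⟩
  have h1 : f C A = h.choose := dif_pos h
  refine ⟨h.choose, h.choose_spec, fun i => ?_⟩
  rw [← h1]
  have h2 : (f C A i).natAbs ≤ ∑ C ∈ 𝒟, ∑ A : Finset (Fin r), ∑ i, (f C A i).natAbs := by
    calc (f C A i).natAbs ≤ ∑ i, (f C A i).natAbs :=
          Finset.single_le_sum (f := fun i => (f C A i).natAbs) (fun _ _ => Nat.zero_le _) (mem_univ i)
      _ ≤ ∑ A : Finset (Fin r), ∑ i, (f C A i).natAbs :=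
          Finset.single_le_sum (f := fun A => ∑ i, (f C A i).natAbs) (fun _ _ => Nat.zero_le _) (mem_univ A)
      _ ≤ _ := Finset.single_le_sum (f := fun C => ∑ A : Finset (Fin r), ∑ i, (f C A i).natAbs)
          (fun _ _ => Nat.zero_le _) hC
  rw [Int.abs_eq_natAbs]
  exact_mod_cast h2

end Pool.Agent.L5helper23.RP
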