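import Pool.Agent.L5helper79.PCR.Final

set_option autoImplicit false

/-!
Systems with monodromy representations of `PSL₂(ℤ)` of rank `6 R` with vanishing `p`-curvatures and `2 R`
independent exponents at infinity.
-/

open Polynomial
open scoped Kronecker

namespace Pool.Agent.L5helper23.RP

open Pool.Agent.L5helper79.PCR Pool.Agent.W432.PC

section pcurv

variable {p : ℕ} [Fact p.Prime]

lemma der_pow' {E : Type*} [Field E] (k : Type*) [Field k] [Algebra k E] (D : Derivation k E E) (u : E)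
    (hu : u ≠ 0) (h1 : D u = 1) (n : ℕ) : D (u ^ n) = n / u * u ^ n := by
  rw [Derivation.leibniz_pow, h1]
  cases n with
  | zero => simp
  | succ n =>
    simp only [Nat.add_sub_cancel, smul_eq_mul, mul_one, nsmul_eq_mul]
    rw [pow_succ]
    field_simp

lemma horizontal (β γ : ZMod p) : ∃ g : RatFunc (ZMod p), g ≠ 0 ∧
    ddx (ZMod p) g = (RatFunc.C β / RatFunc.X + RatFunc.C γ / (RatFunc.X - 1)) * g := by
  have hX : (RatFunc.X : RatFunc (ZMod p)) ≠ 0 := RatFunc.X_ne_zero
  have hX1 : (RatFunc.X - 1 : RatFunc (ZMod p)) ≠ 0 := by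
    intro h
    have h2 := ddx_X (ZMod p)
    have h3 : (RatFunc.X : RatFunc (ZMod p)) = 1 := sub_eq_zero.1 h
    rw [h3, Derivation.map_one_eq_zero] at h2
    exact zero_ne_one h2
  refine ⟨RatFunc.X ^ β.val * (RatFunc.X - 1) ^ γ.val, mul_ne_zero (pow_ne_zero _ hX) (pow_ne_zero _ hX1), ?_⟩
  have hD1 : ddx (ZMod p) (RatFunc.X - 1) = 1 := by
    rw [map_sub, ddx_X, Derivation.map_one_eq_zero, sub_zero]
  rw [Derivation.leibniz, der_pow' (ZMod p) _ _ hX (ddx_X _), der_pow' (ZMod p) _ _ hX1 hD1]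
  have e1 : (RatFunc.C β : RatFunc (ZMod p)) = (β.val : RatFunc (ZMod p)) := by
    conv_lhs => rw [← ZMod.natCast_zmod_val β]
    exact map_natCast _ _
  have e2 : (RatFunc.C γ : RatFunc (ZMod p)) = (γ.val : RatFunc (ZMod p)) := by
    conv_lhs => rw [← ZMod.natCast_zmod_val γ]
    exact map_natCast _ _
  rw [e1, e2]
  simp only [smul_eq_mul]
  ring

lemma pcurv_diag {ι : Type*} [Fintype ι] [DecidableEq ι] (β γ : ι → ZMod p) :
    PCurvZero (Matrix.diagonal β) (Matrix.diagonal γ) := by
  have hring : ringChar (ZMod p) = p := ZMod.ringChar_zmod_n p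
  choose g hg0 hg using fun i => horizontal (β i) (γ i)
  have hn : ∀ y : ι → RatFunc (ZMod p), ∀ i, nabla (Matrix.diagonal β) (Matrix.diagonal γ) y i =
      ddx (ZMod p) (y i) - (RatFunc.C (β i) / RatFunc.X + RatFunc.C (γ i) / (RatFunc.X - 1)) * y i := by
    intro y i
    unfold nabla
    rw [Finset.sum_eq_single i]
    · simp only [sysMat, Matrix.of_apply, Matrix.diagonal_apply_eq]
    · intro j _ hj
      simp only [sysMat, Matrix.of_apply, Matrix.diagonal_apply_ne' _ hj, map_zero, zero_div, add_zero,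
        zero_mul]
    · intro h
      exact absurd (Finset.mem_univ i) h
  have hiter : ∀ (q : ℕ) (f : ι → RatFunc (ZMod p)),
      (nabla (Matrix.diagonal β) (Matrix.diagonal γ))^[q] (fun i => f i * g i) =
        fun i => (ddx (ZMod p))^[q] (f i) * g i := by
    intro q
    induction q with
    | zero => intro f; rfl
    | succ q ih =>
      intro f
      rw [Function.iterate_succ_apply]
      have h1 : nabla (Matrix.diagonal β) (Matrix.diagonal γ) (fun i => f i * g i) =
          fun i => ddx (ZMod p) (f i) * g i := by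
        funext i
        rw [hn, Derivation.leibniz, hg i]
        simp only [smul_eq_mul]
        ring
      rw [h1, ih]
      funext i
      rw [Function.iterate_succ_apply]
  intro y
  rw [hring]
  have hy : y = fun i => (y i / g i) * g i := by
    funext i
    rw [div_mul_cancel₀ _ (hg0 i)]
  rw [hy, hiter]
  funext i
  rw [iterate_p_eq_zero (Fact.out : p.Prime) (ddx (ZMod p)) RatFunc.X (ddx_X _), zero_mul]
  rfl

end pcurv

lemma redMat_diag {ι : Type*} [DecidableEq ι] (p : ℕ) [Fact p.Prime] (n : ℕ) (x : ι → ℤ) :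
    redMat (Int.castRingHom (ZMod p)) n (Matrix.diagonal x) =
      Matrix.diagonal (fun i => ((x i : ℤ) : ZMod p) / (n : ZMod p)) := by
  ext i j
  by_cases h : i = j
  · subst h
    simp [redMat]
  · simp [redMat, Matrix.diagonal_apply_ne _ h]

lemma pcurvQ_diag {ι : Type*} [Fintype ι] [DecidableEq ι] (n : ℕ) (x y : ι → ℤ) :
    PCurvQ n (Matrix.diagonal x) (Matrix.diagonal y) := by
  unfold PCurvQ
  convert Set.finite_empty
  rw [Set.eq_empty_iff_forall_notMem]
  rintro p ⟨hp, h⟩
  apply h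
  rw [redMat_diag, redMat_diag]
  exact pcurv_diag _ _

/-- the digits -/
lemma digits {B : ℕ} (J : ℕ) : ∀ κ : ℕ → ℤ, (∀ j, |κ j| ≤ B) →
    (∃ z : ℤ, ∑ j ∈ Finset.range J, κ j * (2 * B + 1 : ℤ) ^ j = z * (2 * B + 1 : ℤ) ^ J) →
      ∀ j < J, κ j = 0 := by
  induction J with
  | zero => intro κ _ _ j hj; omega
  | succ J ih =>
    rintro κ hκ ⟨z, hz⟩
    rw [Finset.sum_range_succ'] at hz
    have hm : (0 : ℤ) < 2 * B + 1 := by positivity
    have e1 : ∑ j ∈ Finset.range J, κ (j + 1) * (2 * B + 1 : ℤ) ^ (j + 1) =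
        (2 * B + 1) * ∑ j ∈ Finset.range J, κ (j + 1) * (2 * B + 1 : ℤ) ^ j := by
      rw [Finset.mul_sum]
      exact Finset.sum_congr rfl fun j _ => by ring
    rw [e1, pow_zero, mul_one] at hz
    have h0 : κ 0 = 0 := by
      have hd : (2 * B + 1 : ℤ) ∣ κ 0 := by
        refine ⟨z * (2 * B + 1 : ℤ) ^ J - ∑ j ∈ Finset.range J, κ (j + 1) * (2 * B + 1 : ℤ) ^ j, ?_⟩
        rw [pow_succ] at hz
        linear_combination hz
      apply Int.eq_zero_of_abs_lt_dvd hd
      have := hκ 0
      linarith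
    rw [h0, add_zero] at hz
    have h1 := ih (fun j => κ (j + 1)) (fun j => hκ (j + 1)) ⟨z, by
      apply mul_left_cancel₀ hm.ne'
      rw [hz, pow_succ]
      ring⟩
    intro j hj
    cases j with
    | zero => exact h0
    | succ j => exact h1 j (by omega)

end Pool.Agent.L5helper23.RP
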