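import Pool.Agent.L5helper23.RP.Sharp

set_option autoImplicit false

/-!
The exponents at infinity of the push-forward.
-/

open Polynomial
open scoped Kronecker

namespace Pool.Agent.L5helper23.RP

open Pool.Agent.L5helper79.PCR

/-- change of basis -/
def QQ : Matrix (Fin 6) (Fin 6) ℤ :=
  !![1, 0, 0, 0, 0, 0;
    0, 1, 0, 0, 0, 0;
    1, 1, 1, 1, 1, 1;
    0, 1, 2, 3, 4, 5;
    0, 0, 0, 0, 0, 1;
    0, 0, 0, 0, 1, 0]

/-- its inverse -/
def QI : Matrix (Fin 6) (Fin 6) ℤ :=
  !![1, 0, 0, 0, 0, 0;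
    0, 1, 0, 0, 0, 0;
    -3, -2, 3, -1, 2, 1;
    2, 1, -2, 1, -3, -2;
    0, 0, 0, 0, 0, 1;
    0, 0, 0, 0, 1, 0]

/-- triangular form -/
def T1 : Matrix (Fin 6) (Fin 6) ℤ :=
  !![-54, 0, 0, 0, 0, 0;
    27, -54, 0, 0, 0, 0;
    0, 0, 0, 0, 0, 0;
    0, 0, -54, 0, 0, 0;
    0, 0, 0, 0, 54, 0;
    0, 0, 0, 0, -27, 54]

/-- triangular form -/
def T2 : Matrix (Fin 6) (Fin 6) ℤ :=
  !![0, 0, 0, 0, 0, 0;
    54, 0, 0, 0, 0, 0;
    0, 0, -54, 0, 0, 0;
    0, 0, -27, -54, 0, 0;
    0, 0, 0, 0, 54, 0;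
    0, 0, 0, 0, 27, 54]

/-- triangular form -/
def T3 : Matrix (Fin 6) (Fin 6) ℤ :=
  !![0, 0, 0, 0, 0, 0;
    0, -54, 0, 0, 0, 0;
    0, 0, 0, 0, 0, 0;
    0, 0, 0, -54, 0, 0;
    0, 0, 0, 0, 270, 0;
    0, 0, 0, 0, -135, 216]

lemma QIQ : QI * QQ = 1 := by decide +kernel

lemma tri1 : QQ * (MU + MU2) * QI = T1 := by decide +kernel

lemma tri2 : QQ * (MW + MW2) * QI = T2 := by decide +kernel

lemma tri3 : QQ * ((MU + MU2) * MK) * QI = T3 := by decide +kernel

lemma low (k l : Fin 6) (h : k < l) : T1 k l = 0 ∧ T2 k l = 0 ∧ T3 k l = 0 := by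
  fin_cases k <;> fin_cases l <;> first | exact ⟨rfl, rfl, rfl⟩ | exact absurd h (by decide)

section

variable {ι : Type*} [Fintype ι] [DecidableEq ι]

omit [Fintype ι] in
lemma sum_eq (n : ℤ) (b c : Matrix ι ι ℤ) : pushB n b c + pushC n b c =
    b ⊗ₖ (MU + MU2) + c ⊗ₖ (MW + MW2) - n • ((1 : Matrix ι ι ℤ) ⊗ₖ ((MU + MU2) * MK)) := by
  unfold pushB pushC
  rw [Matrix.add_mul, Matrix.kronecker_add, Matrix.kronecker_add, Matrix.kronecker_add, smul_add]
  abel

lemma conj_eq (n : ℤ) (b c : Matrix ι ι ℤ) :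
    ((1 : Matrix ι ι ℤ) ⊗ₖ QQ) * (pushB n b c + pushC n b c) * ((1 : Matrix ι ι ℤ) ⊗ₖ QI) =
      b ⊗ₖ T1 + c ⊗ₖ T2 - n • ((1 : Matrix ι ι ℤ) ⊗ₖ T3) := by
  rw [sum_eq, Matrix.mul_sub, Matrix.mul_add, Matrix.sub_mul, Matrix.add_mul, Matrix.mul_smul,
    Matrix.smul_mul]
  simp only [← Matrix.mul_kronecker_mul, one_mul, mul_one, tri1, tri2, tri3]

lemma one_kron : ((1 : Matrix ι ι ℤ) ⊗ₖ QI) * ((1 : Matrix ι ι ℤ) ⊗ₖ QQ) = 1 := by
  rw [← Matrix.mul_kronecker_mul, one_mul, QIQ, Matrix.one_kronecker_one]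

end

/-- the residue at infinity of the push-forward of a diagonal system, divided by `108 n` -/
noncomputable def resInf (R n : ℕ) (x y : Fin R → ℤ) : Matrix (Fin (R * 6)) (Fin (R * 6)) ℚ :=
  Matrix.of fun i j => ((((pushB (n : ℤ) (Matrix.diagonal x) (Matrix.diagonal y)).submatrix
    finProdFinEquiv.symm finProdFinEquiv.symm i j +
      (pushC (n : ℤ) (Matrix.diagonal x) (Matrix.diagonal y)).submatrix
        finProdFinEquiv.symm finProdFinEquiv.symm i j : ℤ) : ℚ)) / (108 * n : ℕ)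

/-- the exponents -/
noncomputable def expInf (R n : ℕ) (x y : Fin R → ℤ) (t : Fin R × Fin 6) : ℚ :=
  -((x t.1 * T1 t.2 t.2 + y t.1 * T2 t.2 t.2 - n * T3 t.2 t.2 : ℤ) : ℚ) / (108 * n : ℕ)

lemma charpoly_resInf (R n : ℕ) (x y : Fin R → ℤ) :
    (resInf R n x y).charpoly = ∏ l : Fin (R * 6), (X - C (-expInf R n x y (finProdFinEquiv.symm l))) := by
  classical
  let φ : Matrix (Fin R × Fin 6) (Fin R × Fin 6) ℤ →+* Matrix (Fin R × Fin 6) (Fin R × Fin 6) ℚ :=
    (Int.castRingHom ℚ).mapMatrix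
  set M : Matrix (Fin R × Fin 6) (Fin R × Fin 6) ℤ := pushB (n : ℤ) (Matrix.diagonal x) (Matrix.diagonal y) +
    pushC (n : ℤ) (Matrix.diagonal x) (Matrix.diagonal y) with hM
  set T : Matrix (Fin R × Fin 6) (Fin R × Fin 6) ℤ := (Matrix.diagonal x) ⊗ₖ T1 + (Matrix.diagonal y) ⊗ₖ T2 -
    (n : ℤ) • ((1 : Matrix (Fin R) (Fin R) ℤ) ⊗ₖ T3) with hT
  set d : ℚ := ((108 * n : ℕ) : ℚ)⁻¹ with hd
  have h1 : resInf R n x y = Matrix.reindex finProdFinEquiv finProdFinEquiv (d • φ M) := by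
    ext i j
    simp only [resInf, Matrix.of_apply, Matrix.submatrix_apply, Matrix.reindex_apply, Matrix.smul_apply,
      smul_eq_mul, hM, φ, RingHom.mapMatrix_apply, Matrix.map_apply, Matrix.add_apply, eq_intCast, hd]
    rw [div_eq_mul_inv, mul_comm]
  have h2 : (d • φ M).charpoly = (d • φ T).charpoly := by
    have e : d • φ T = φ ((1 : Matrix (Fin R) (Fin R) ℤ) ⊗ₖ QQ) * ((d • φ M) *
        φ ((1 : Matrix (Fin R) (Fin R) ℤ) ⊗ₖ QI)) := by
      rw [Matrix.smul_mul, Matrix.mul_smul, ← map_mul, ← map_mul, ← mul_assoc, hM, conj_eq]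
    rw [e, Matrix.charpoly_mul_comm, mul_assoc, ← map_mul, one_kron, map_one, mul_one]
  rw [h1, Matrix.charpoly_reindex, h2, ← Matrix.charpoly_reindex finProdFinEquiv, ← Matrix.charpoly_transpose]
  have hup : (Matrix.transpose (Matrix.reindex finProdFinEquiv finProdFinEquiv (d • φ T))).BlockTriangular id := by
    intro i j hij
    simp only [id_eq] at hij
    rw [Matrix.transpose_apply, Matrix.reindex_apply, Matrix.submatrix_apply]
    have hz : T (finProdFinEquiv.symm j) (finProdFinEquiv.symm i) = 0 := by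
      rw [hT]
      simp only [Matrix.sub_apply, Matrix.add_apply, Matrix.smul_apply, Matrix.kroneckerMap_apply]
      by_cases hdd : (finProdFinEquiv.symm j).1 = (finProdFinEquiv.symm i).1
      · have hlt : (finProdFinEquiv.symm j).2 < (finProdFinEquiv.symm i).2 := by
          have e1 : finProdFinEquiv (finProdFinEquiv.symm j) = j := finProdFinEquiv.apply_symm_apply j
          have e2 : finProdFinEquiv (finProdFinEquiv.symm i) = i := finProdFinEquiv.apply_symm_apply i
          generalize finProdFinEquiv.symm j = u at *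
          generalize finProdFinEquiv.symm i = v at *
          subst e1 e2
          rw [Fin.lt_def] at hij ⊢
          simp only [finProdFinEquiv_apply_val] at hij
          rw [hdd] at hij
          omega
        obtain ⟨l1, l2, l3⟩ := low _ _ hlt
        rw [l1, l2, l3]
        simp
      · rw [Matrix.diagonal_apply_ne _ hdd, Matrix.diagonal_apply_ne _ hdd, Matrix.one_apply_ne hdd]
        simp
    simp only [Matrix.smul_apply, smul_eq_mul, φ, RingHom.mapMatrix_apply, Matrix.map_apply, hz, map_zero,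
      mul_zero]
  rw [Matrix.charpoly_of_isUpperTriangular _ hup]
  refine Finset.prod_congr rfl fun l _ => ?_
  congr 2
  rw [Matrix.transpose_apply, Matrix.reindex_apply, Matrix.submatrix_apply]
  generalize finProdFinEquiv.symm l = u
  simp only [Matrix.smul_apply, smul_eq_mul, φ, RingHom.mapMatrix_apply, Matrix.map_apply, hT,
    Matrix.sub_apply, Matrix.add_apply, Matrix.kroneckerMap_apply, Matrix.diagonal_apply_eq,
    Matrix.one_apply_eq, expInf, hd, eq_intCast]
  rw [neg_div, neg_neg, div_eq_mul_inv, mul_comm]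
  congr 1
  push_cast
  ring

lemma sum_double (R : ℕ) (f : ℕ → ℚ) : ∑ j ∈ Finset.range (2 * R), f j =
    ∑ i ∈ Finset.range R, (f (2 * i) + f (2 * i + 1)) := by
  induction R with
  | zero => simp
  | succ R ih =>
    rw [show 2 * (R + 1) = 2 * R + 1 + 1 by ring, Finset.sum_range_succ, Finset.sum_range_succ, ih,
      Finset.sum_range_succ]
    ring

/-- **Systems with `2 R` independent exponents at infinity.** -/
theorem sharp (R B : ℕ) : ∃ (n : ℕ) (b c : Matrix (Fin (R * 6)) (Fin (R * 6)) ℤ)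
    (mu : Fin (R * 6) → ℚ) (A : Finset (Fin (R * 6))), 0 < n ∧ PCurvQ n b c ∧ OrderThreeTwo n b c ∧
      (Matrix.of fun i j => ((b i j + c i j : ℤ) : ℚ) / n).charpoly = ∏ l, (X - C (-mu l)) ∧
      A.card = 2 * R ∧ ∀ k : Fin (R * 6) → ℤ, (∀ l, l ∉ A → k l = 0) → (∀ l, |k l| ≤ B) →
        (∃ z : ℤ, ∑ l, (k l : ℚ) * mu l = z) → k = 0 := by
  classical
  set n : ℕ := (2 * B + 1) ^ (2 * R) with hn
  have hn0 : 0 < n := by positivity
  set x : Fin R → ℤ := fun i => 2 * (2 * B + 1) ^ (2 * (i : ℕ)) with hx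
  set y : Fin R → ℤ := fun i => 2 * (2 * B + 1) ^ (2 * (i : ℕ) + 1) with hy
  let A : Finset (Fin (R * 6)) := (Finset.univ ×ˢ ({0, 2} : Finset (Fin 6))).map finProdFinEquiv.toEmbedding
  have hq : PCurvQ (108 * n) (pushB (n : ℤ) (Matrix.diagonal x) (Matrix.diagonal y))
      (pushC (n : ℤ) (Matrix.diagonal x) (Matrix.diagonal y)) := pcurvQ_push n _ _ hn0 (pcurvQ_diag n x y)
  refine ⟨108 * n, (pushB (n : ℤ) (Matrix.diagonal x) (Matrix.diagonal y)).submatrix
    finProdFinEquiv.symm finProdFinEquiv.symm, (pushC (n : ℤ) (Matrix.diagonal x) (Matrix.diagonal y)).submatrix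
    finProdFinEquiv.symm finProdFinEquiv.symm, fun l => expInf R n x y (finProdFinEquiv.symm l), A,
    by positivity, ?_, rel_submatrix _ _ _ _ (rel_push n _ _), charpoly_resInf R n x y, ?_, ?_⟩
  · refine hq.subset ?_
    rintro p ⟨hp, h⟩
    refine ⟨hp, fun hcon => h ?_⟩
    rw [redMat_submatrix, redMat_submatrix]
    exact pCurvZero_submatrix _ _ finProdFinEquiv.symm hcon
  · rw [Finset.card_map, Finset.card_product, Finset.card_univ, Fintype.card_fin]
    have : ({0, 2} : Finset (Fin 6)).card = 2 := by decide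
    rw [this, mul_comm]
  · rintro k hkA hkB ⟨z, hz⟩
    rw [← finProdFinEquiv.sum_comp] at hz
    simp only [Equiv.symm_apply_apply] at hz
    rw [Fintype.sum_prod_type] at hz
    have hkA' : ∀ (i : Fin R) (a : Fin 6), a ≠ 0 → a ≠ 2 → k (finProdFinEquiv (i, a)) = 0 := by
      intro i a h0 h2
      apply hkA
      intro h
      rw [Finset.mem_map] at h
      obtain ⟨t, ht, he⟩ := h
      have : t = (i, a) := finProdFinEquiv.injective he
      subst this
      rw [Finset.mem_product] at ht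
      have := ht.2
      simp only [Finset.mem_insert, Finset.mem_singleton] at this
      rcases this with h | h
      · exact h0 h
      · exact h2 h
    have hnq : (n : ℚ) ≠ 0 := by exact_mod_cast hn0.ne'
    have hnval : (n : ℚ) = (2 * B + 1 : ℚ) ^ (2 * R) := by
      rw [hn]
      push_cast
      ring
    have hrow : ∀ i : Fin R, ∑ a : Fin 6, (k (finProdFinEquiv (i, a)) : ℚ) * expInf R n x y (i, a) =
        ((k (finProdFinEquiv (i, 0)) : ℚ) * (2 * B + 1) ^ (2 * (i : ℕ)) +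
          (k (finProdFinEquiv (i, 2)) : ℚ) * (2 * B + 1) ^ (2 * (i : ℕ) + 1)) / n := by
      intro i
      rw [Fin.sum_univ_six, hkA' i 1 (by decide) (by decide), hkA' i 3 (by decide) (by decide),
        hkA' i 4 (by decide) (by decide), hkA' i 5 (by decide) (by decide)]
      have e0 : expInf R n x y (i, 0) = (2 * B + 1) ^ (2 * (i : ℕ)) / n := by
        simp only [expInf, hx, hy]
        rw [show T1 0 0 = -54 from rfl, show T2 0 0 = 0 from rfl, show T3 0 0 = 0 from rfl]
        push_cast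
        field_simp
        ring
      have e2 : expInf R n x y (i, 2) = (2 * B + 1) ^ (2 * (i : ℕ) + 1) / n := by
        simp only [expInf, hx, hy]
        rw [show T1 2 2 = 0 from rfl, show T2 2 2 = -54 from rfl, show T3 2 2 = 0 from rfl]
        push_cast
        field_simp
        ring
      rw [e0, e2]
      simp only [Int.cast_zero, zero_mul, add_zero]
      ring
    rw [Finset.sum_congr rfl fun i _ => hrow i, ← Finset.sum_div, div_eq_iff hnq, hnval] at hz
    let κ : ℕ → ℤ := fun j => if h : j / 2 < R then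
      (if j % 2 = 0 then k (finProdFinEquiv (⟨j / 2, h⟩, 0)) else k (finProdFinEquiv (⟨j / 2, h⟩, 2))) else 0
    have hκ0 : ∀ i : Fin R, κ (2 * (i : ℕ)) = k (finProdFinEquiv (i, 0)) := by
      intro i
      have h1 : 2 * (i : ℕ) / 2 = i := by omega
      have h2 : 2 * (i : ℕ) % 2 = 0 := by omega
      simp only [κ, h1, h2, if_true, i.2, dif_pos]
    have hκ1 : ∀ i : Fin R, κ (2 * (i : ℕ) + 1) = k (finProdFinEquiv (i, 2)) := by
      intro i
      have h1 : (2 * (i : ℕ) + 1) / 2 = i := by omega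
      have h2 : ¬ ((2 * (i : ℕ) + 1) % 2 = 0) := by omega
      simp only [κ, h1, h2, if_false, i.2, dif_pos]
    have hdig := digits (B := B) (2 * R) κ (fun j => by
      simp only [κ]
      split_ifs
      · exact hkB _
      · exact hkB _
      · rw [abs_zero]
        positivity) ⟨z, by
      have e1 : ∑ j ∈ Finset.range (2 * R), ((κ j : ℤ) : ℚ) * (2 * B + 1 : ℚ) ^ j = z * (2 * B + 1 : ℚ) ^ (2 * R) := by
        rw [sum_double, Finset.sum_range]
        rw [← hz]
        refine Finset.sum_congr rfl fun i _ => ?_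
        rw [hκ0, hκ1]
      exact_mod_cast e1⟩
    funext l
    obtain ⟨⟨i, a⟩, rfl⟩ := finProdFinEquiv.surjective l
    by_cases h0 : a = 0
    · subst h0
      rw [← hκ0]
      exact hdig _ (by omega)
    · by_cases h2 : a = 2
      · subst h2
        rw [← hκ1]
        exact hdig _ (by omega)
      · exact hkA' i a h0 h2

end Pool.Agent.L5helper23.RP
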