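import Pool.Agent.L5helper23.RP.Equi

set_option autoImplicit false

/-!
The thrice punctured line: all consequences of the inequalities for the multiples prime to `M`.
-/

namespace Pool.Agent.L5helper23.RP

open Pool.Agent.W432.PC Pool.Agent.W432.TC Pool.Agent.Y227.SS Finset

universe u

/-- The conclusion for all systems. -/
def General (M : ℕ) {r : ℕ} (lam : Fin 3 → Fin r → ℚ) : Prop :=
  (∀ e : ℤ, IsCoprime e (M : ℤ) →
    SemistableWeights ℂ (fun (j : Fin 2) l => (e : ℝ) * lam j.castSucc l)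
      (fun l => -((e : ℝ) * lam 2 l))) ∧
  (∀ x y z : Fin 3, x ≠ y → y ≠ z → x ≠ z → ∀ k l : Fin r,
    mult M (lam y) (lam y k) + mult M (lam z) (lam z l) ≤
      r + mult M (lam x) (-lam y k - lam z l)) ∧
  (∀ x y z : Fin 3, x ≠ y → y ≠ z → x ≠ z → (∀ l l', PrimeDen M (lam z l - lam z l')) →
    ∃ σ : Equiv.Perm (Fin r), ∀ l k, PrimeDen M (lam x l + lam y (σ l) + lam z k))

open scoped Classical in
/-- The conclusion for the systems whose exponents at the finite points are equidistributed in the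
multiples of `1 / p` and of `1 / q`. -/
def Special (M B p q : ℕ) {r : ℕ} (lam : Fin 3 → Fin r → ℚ) : Prop :=
  (∀ e : ℤ, IsCoprime e (M : ℤ) → ∀ j k : ℤ, j < k →
    ((univ.filter fun l => InArc p q j k ((e : ℝ) * lam 2 l)).card : ℝ) ≤ bd r p q (k - j)) ∧
  (∀ l, (mult M (lam 2) (lam 2 l) : ℝ) ≤ bd r p q 2 ∧
    (¬ PrimeDen M (Nat.lcm p q * lam 2 l) → (mult M (lam 2) (lam 2 l) : ℝ) ≤ bd r p q 1)) ∧
  ∀ A : Finset (Fin r), bd r p q 1 < A.card → ∃ k : Fin r → ℤ, (∃ l, k l ≠ 0) ∧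
    (∀ l, l ∉ A → k l = 0) ∧ (∀ l, |k l| ≤ B) ∧ ∃ z : ℤ, ∑ l, (k l : ℚ) * lam 2 l = z

lemma allIneq_of_nice {r M₀ : ℕ} (d : ℕ) {lam : Fin 3 → Fin r → ℚ}
    (h : ∀ e : ℤ, IsCoprime e (M₀ : ℤ) → Nice (fun i => (e : ℝ) *
      ((Sum.elim (fun p : Fin 2 × Fin r => lam p.1.castSucc p.2) (fun l => -lam 2 l) :
        ExponentIndex 2 r → ℚ) i : ℝ))) : AllIneq (M₀ * d) lam := by
  intro e he
  push_cast at he
  have h1 := (h e he.of_mul_right_left).1
  unfold WeylBoth at h1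
  simp only [Sum.elim_inl, Sum.elim_inr] at h1
  constructor
  · apply ineq_of_weyl
    have h2 := h1.1
    convert h2 using 2
    push_cast
    ring
  · apply ineq_of_weyl
    have h2 := h1.2
    convert h2 using 2
    push_cast
    ring

lemma general_of_nice {r M₀ : ℕ} (d : ℕ) {lam : Fin 3 → Fin r → ℚ}
    (h : ∀ e : ℤ, IsCoprime e (M₀ : ℤ) → Nice (fun i => (e : ℝ) *
      ((Sum.elim (fun p : Fin 2 × Fin r => lam p.1.castSucc p.2) (fun l => -lam 2 l) :
        ExponentIndex 2 r → ℚ) i : ℝ))) : General (M₀ * d) lam := by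
  have hall := allIneq_of_nice d h
  refine ⟨fun e he => ?_, fun x y z h1 h2 h3 k l => part2 hall h1 h2 h3 k l,
    fun x y z h1 h2 h3 hz => part3 hall h1 h2 h3 hz⟩
  push_cast at he
  have h1 := (h e he.of_mul_right_left).2
  simp only [Sum.elim_inl, Sum.elim_inr] at h1
  convert h1 using 2
  push_cast
  ring

lemma special_of_nice {r M₀ B M₁ : ℕ} (hM₁ : 0 < M₁) {lam : Fin 3 → Fin r → ℚ}
    (h : ∀ e : ℤ, IsCoprime e (M₀ : ℤ) → Nice (fun i => (e : ℝ) *
      ((Sum.elim (fun p : Fin 2 × Fin r => lam p.1.castSucc p.2) (fun l => -lam 2 l) :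
        ExponentIndex 2 r → ℚ) i : ℝ)))
    {L : AddSubgroup (ExponentIndex 2 r → ℤ)} {c : ExponentIndex 2 r → ℚ}
    (hx : InCoset L c (fun i => ((Sum.elim (fun p : Fin 2 × Fin r => lam p.1.castSucc p.2)
      (fun l => -lam 2 l) : ExponentIndex 2 r → ℚ) i : ℝ)))
    (H : ∀ z, InCoset L c z → WeylBoth z)
    (hc : ∀ i, ∃ k : ℤ, (M₁ : ℚ) * c i = k)
    (hB : ∀ A : Finset (Fin r), (∃ m, RelIn L A m) → ∃ m, RelIn L A m ∧ ∀ i, |m i| ≤ B)
    {p q : ℕ} (hp : 0 < p) (hq : 0 < q) (h0 : Equi p (lam 0)) (h1 : Equi q (lam 1)) :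
    Special (M₀ * r.factorial) (M₁ * r * B) p q lam := by
  classical
  rcases Nat.eq_zero_or_pos r with hr | hr
  · subst hr
    refine ⟨fun e _ j k _ => ?_, fun l => l.elim0, fun A hA => ?_⟩
    · have : (univ.filter fun l : Fin 0 => InArc p q j k ((e : ℝ) * lam 2 l)).card = 0 :=
        Finset.card_eq_zero.2 (Finset.eq_empty_of_isEmpty _)
      rw [this]
      simp [bd]
    · exfalso
      have : A.card = 0 := Finset.card_eq_zero.2 (Finset.eq_empty_of_isEmpty _)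
      rw [this] at hA
      simp [bd] at hA
  have hall := allIneq_of_nice r.factorial h
  have hpM : p ∣ M₀ * r.factorial :=
    (Nat.dvd_factorial hp (Nat.le_of_dvd hr h0.dvd)).trans (Dvd.intro_left _ rfl)
  have hqM : q ∣ M₀ * r.factorial :=
    (Nat.dvd_factorial hq (Nat.le_of_dvd hr h1.dvd)).trans (Dvd.intro_left _ rfl)
  refine ⟨fun e he j k hjk => arc_mult hall hp hq hpM hqM h0 h1 e he j k hjk,
    fun l => mult_bd hall hp hq hpM hqM h0 h1 l, fun A hA => ?_⟩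
  obtain ⟨m, hm, hmB⟩ := hB A (exists_relIn H hx hp hq h0.real h1.real A (by
    unfold bd at hA
    push_cast at hA
    exact hA))
  obtain ⟨hmL, ⟨l₀, hl₀⟩, hmA⟩ := hm
  refine ⟨fun l => M₁ * r * m (Sum.inr l), ⟨l₀, ?_⟩, fun l hl => ?_, fun l => ?_, ?_⟩
  · refine mul_ne_zero (mul_ne_zero ?_ ?_) hl₀
    · exact_mod_cast hM₁.ne'
    · exact_mod_cast hr.ne'
  · show (M₁ : ℤ) * r * m (Sum.inr l) = 0
    rw [hmA l hl, mul_zero]
  · show |(M₁ : ℤ) * r * m (Sum.inr l)| ≤ _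
    rw [abs_mul]
    have h2 := hmB (Sum.inr l)
    have h3 : |(M₁ : ℤ) * r| = M₁ * r := abs_of_nonneg (by positivity)
    rw [h3]
    push_cast
    exact mul_le_mul_of_nonneg_left h2 (by positivity)
  · obtain ⟨z, hz⟩ := integral_relation hx hc (fun t => by
      obtain ⟨j, l⟩ := t
      fin_cases j
      · exact h0.mem hp l
      · exact h1.mem hq l) hmL
    refine ⟨-z, ?_⟩
    simp only [Sum.elim_inr] at hz
    push_cast at hz ⊢
    rw [← hz, ← Finset.sum_neg_distrib]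
    exact Finset.sum_congr rfl fun l _ => by ring

end Pool.Agent.L5helper23.RP
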